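import Pool.Agent.StarkRQ.OctG.Complete

/-!
# Stark's conjecture up to an explicit power of `2` for closures with central squares

`all_complete` with the hypothesis `[G : Z] ≤ 32 * 4^m` and the power `2^m`.
-/

set_option autoImplicit false

noncomputable section

open NumberField Module Pool.Agent.StarkRQ
open scoped commutatorElement

namespace Pool.Agent.StarkRQ.OctG

open Pool.Agent.StarkRQ.Oct

theorem all_power {M : Type} [Field M] [NumberField M] [IsGalois ℚ M] {K H : Type} [Field K]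
    [NumberField K] [Field H] [NumberField H] [Algebra K M] [Algebra K H] [Algebra H M]
    [IsScalarTower K H M] [IsTotallyReal K] (hK : finrank ℚ K = 2) [IsAbelianGalois K H]
    (hsq : ∀ g h : Gal(M/ℚ), g * g * h = h * (g * g))
    {m : ℕ} (hidx : (Subgroup.center Gal(M/ℚ)).index ≤ 32 * 4 ^ m)
    (ι : M →+* ℂ) (hH : ∀ y : H, (ι (algebraMap H M y)).im = 0)
    {N : ℕ} (hN0 : N ≠ 0) (hN2 : 2 ∣ N)
    (hram : ∀ p : ℕ, p.Prime → (p : ℤ) ∣ discr M → p ∣ N)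
    (ι₂ : K →+* ℝ) (hι₂ : ∃ x : K, ((ι₂ x : ℝ) : ℂ) ≠ ι (algebraMap K M x))
    (hmodH : ∀ a : 𝓞 K, (N : 𝓞 K) ∣ a - 1 → 0 < ι₂ (a : K) →
      HasArtinSymbol (Ideal.span {a}) (1 : Gal(H/K))) :
    ∃ (Z : Gal(H/K) → ℂ → ℂ) (ε : Gal(H/K) → (𝓞 H)ˣ),
      (∀ σ, IsPartialZeta N σ (Z σ) ∧
        ι (algebraMap H M (ε σ : 𝓞 H)) = Complex.exp (-2 ^ (m + 1) * deriv (Z σ) 0)) ∧
      (∀ ρ σ, ρ ((ε σ : 𝓞 H) : H) = ((ε (ρ * σ) : 𝓞 H) : H)) ∧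
      (∃ (E : Type) (_ : Field E) (_ : Algebra K E) (_ : Algebra H E) (_ : IsScalarTower K H E),
        IsAbelianGalois K E ∧ ∀ σ, ∃ y : E, y ^ 2 = algebraMap H E ((ε σ : 𝓞 H) : H)) ∧
      ∀ g : H →+* ℂ, (∃ x : K, g (algebraMap K H x) ≠ ι (algebraMap K M x)) →
        ∀ σ, ‖g ((ε σ : 𝓞 H) : H)‖ = 1 := by
  obtain ⟨d, hd⟩ := index_center_of_sq hsq
  have hdm : d ≤ 2 * m + 5 := by
    rw [hd] at hidx
    by_contra h
    have h1 : 2 ^ (2 * m + 6) ≤ 2 ^ d := Nat.pow_le_pow_right (by norm_num) (by omega)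
    have h2 : 2 ^ (2 * m + 6) = 64 * 4 ^ m := by
      rw [pow_add, pow_mul]
      norm_num
      ring
    have h3 : 0 < 4 ^ m := by positivity
    omega
  obtain ⟨r, hr⟩ : ∃ r, m = d / 2 - 2 + r := ⟨m - (d / 2 - 2), by omega⟩
  obtain ⟨Z, ε, h1, h2, ⟨E, _, _, _, _, hE, h3⟩, h4⟩ :=
    all_complete hK hsq hd ι hH hN0 hN2 hram ι₂ hι₂ hmodH
  refine ⟨Z, fun σ => ε σ ^ 2 ^ r, fun σ => ⟨(h1 σ).1, ?_⟩, fun ρ σ => ?_,
    ⟨E, inferInstance, inferInstance, inferInstance, inferInstance, hE, fun σ => ?_⟩,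
    fun g hg σ => ?_⟩
  · have h5 := (h1 σ).2
    have h6 : ι (algebraMap H M ((ε σ ^ 2 ^ r : (𝓞 H)ˣ) : 𝓞 H)) =
        ι (algebraMap H M ((ε σ : (𝓞 H)ˣ) : 𝓞 H)) ^ 2 ^ r := by
      rw [Units.val_pow_eq_pow_val, ← map_pow, ← map_pow]
      rfl
    rw [h6, h5, ← Complex.exp_nat_mul]
    congr 1
    rw [hr]
    push_cast
    ring
  · have h6 : ∀ τ, (((ε τ ^ 2 ^ r : (𝓞 H)ˣ) : 𝓞 H) : H) = ((ε τ : 𝓞 H) : H) ^ 2 ^ r := by
      intro τ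
      rw [Units.val_pow_eq_pow_val]
      rfl
    rw [h6, h6, map_pow, h2]
  · obtain ⟨y, hy⟩ := h3 σ
    refine ⟨y ^ 2 ^ r, ?_⟩
    have h6 : (((ε σ ^ 2 ^ r : (𝓞 H)ˣ) : 𝓞 H) : H) = ((ε σ : 𝓞 H) : H) ^ 2 ^ r := by
      rw [Units.val_pow_eq_pow_val]
      rfl
    rw [h6, map_pow, ← hy, ← pow_mul, ← pow_mul, mul_comm]
  · have h6 : (((ε σ ^ 2 ^ r : (𝓞 H)ˣ) : 𝓞 H) : H) = ((ε σ : 𝓞 H) : H) ^ 2 ^ r := by
      rw [Units.val_pow_eq_pow_val]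
      rfl
    rw [h6, map_pow, norm_pow, h4 g hg σ, one_pow]

end Pool.Agent.StarkRQ.OctG
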