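import Mathlib

/-!
# A basis of an elementary abelian `2`-group which contains a given element
-/

namespace Pool.Agent.StarkRQ.OctG

open Module

/-- the sums over subsets of a basis over `ZMod 2` -/
theorem exists_basis {V : Type*} [AddCommGroup V] [Finite V] (h2 : ∀ x : V, 2 • x = 0) {n : ℕ}
    (hn : Nat.card V = 2 ^ n) {a : V} (ha : a ≠ 0) :
    ∃ (b : Fin n → V) (i₀ : Fin n), b i₀ = a ∧
      Function.Bijective (fun A : Finset (Fin n) => ∑ i ∈ A, b i) := by
  classical
  let _ : Module (ZMod 2) V := AddCommGroup.zmodModule h2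
  have : Fact (Nat.Prime 2) := ⟨Nat.prime_two⟩
  have hs : LinearIndepOn (ZMod 2) id ({a} : Set V) := LinearIndepOn.singleton (by simpa using ha)
  let B := Basis.extend hs
  have hfin : Finite (hs.extend (Set.subset_univ _) : Set V) := inferInstance
  have := Fintype.ofFinite (hs.extend (Set.subset_univ _) : Set V)
  have := Fintype.ofFinite V
  have hcard : Fintype.card (hs.extend (Set.subset_univ _) : Set V) = n := by
    have h1 := Module.card_eq_pow_finrank (K := ZMod 2) (V := V)
    rw [ZMod.card, ← Nat.card_eq_fintype_card, hn] at h1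
    have h3 := Nat.pow_right_injective (le_refl 2) h1
    rw [h3, Module.finrank_eq_card_basis B]
  let e : (hs.extend (Set.subset_univ _) : Set V) ≃ Fin n := Fintype.equivFinOfCardEq hcard
  let b := B.reindex e
  refine ⟨b, e ⟨a, Basis.subset_extend hs (Set.mem_singleton a)⟩, ?_, ?_⟩
  · rw [Basis.reindex_apply, Equiv.symm_apply_apply, Basis.extend_apply_self]
  · rw [Fintype.bijective_iff_injective_and_card]
    constructor
    · intro A A' h
      have h1 : ∀ A : Finset (Fin n), ∑ i ∈ A, b i = ∑ i, (if i ∈ A then (1 : ZMod 2) else 0) • b i := by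
        intro A
        simp_rw [ite_smul, one_smul, zero_smul]
        rw [Finset.sum_ite_mem, Finset.univ_inter]
      simp only [h1] at h
      have h3 := congrArg (fun v => b.repr v) h
      ext i
      have h4 := DFunLike.congr_fun h3 i
      simp only [map_sum, map_smul, Basis.repr_self, Finsupp.smul_single, smul_eq_mul, mul_one,
        Finsupp.coe_finsetSum, Finset.sum_apply, Finsupp.single_apply, Finset.sum_ite_eq',
        Finset.mem_univ, if_true] at h4
      by_cases h5 : i ∈ A <;> by_cases h6 : i ∈ A' <;> simp_all
    · rw [Fintype.card_finset, Fintype.card_fin, ← hn, Nat.card_eq_fintype_card]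

end Pool.Agent.StarkRQ.OctG
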