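import Pool.Agent.StarkRQ.OctG.Transport
import Pool.Agent.StarkRQ.Oct.Theta
import Pool.Agent.StarkRQ.Oct.CharSum
import Pool.Agent.StarkRQ.ThetaAbs
import Pool.Agent.StarkRQ.Oct.PhiBasic

/-!
# The power `2^m` of `Phi`, for all orders of `D`

`D = δ.range` of order `2^n`, `m = (n-1)/2 - 1`. The functions `v_e = tr h₀ ψ_e - n₀ ψ_e` are in `SF ι`,
`∑_e ∑_t v_e (g t) = 2^n (tr h₀ V - n₀ V)` with `tr h₀ V - n₀ V ∈ SF ι` (`theta_mem`), so the
combinatorial lemma `phi_div` applies to them.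
-/

open NumberField
open scoped commutatorElement

namespace Pool.Agent.StarkRQ.OctG

open Pool.Agent.StarkRQ.Oct

private lemma PhiH0_fin (D : Type*) [Group D] [Finite D] : Finite (D →* ℤˣ) :=
  Finite.of_injective (fun e : D →* ℤˣ => (e : D → ℤˣ)) DFunLike.coe_injective

private lemma PhiH0_dual {D : Type*} [Group D] [Finite D] [Fintype (D →* ℤˣ)]
    (hD : ∀ s t : D, s * t = t * s) (h2 : ∀ t : D, t * t = 1) {t : D} (ht : t ≠ 1) :
    ∑ e : D →* ℤˣ, ((e t : ℤˣ) : ℤ) = 0 := by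
  obtain ⟨p, -, hp⟩ := exists_sep (G := D) ⊥ (fun g => by rw [h2]; exact Subgroup.one_mem _)
    (fun g h => by
      rw [commutatorElement_def, hD g h, mul_assoc, mul_assoc, ← mul_assoc g, mul_inv_cancel,
        one_mul, mul_inv_cancel]
      exact Subgroup.one_mem _) (x := t) (fun h => ht (Subgroup.mem_bot.1 h))
  have h1 : ∑ e : D →* ℤˣ, ((e t : ℤˣ) : ℤ) = ∑ e : D →* ℤˣ, -((e t : ℤˣ) : ℤ) := by
    refine Fintype.sum_equiv (Equiv.mulLeft p) _ _ fun e => ?_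
    simp only [Equiv.coe_mulLeft, MonoidHom.mul_apply]
    rw [hp, neg_one_mul, Units.val_neg, neg_neg]
  rw [Finset.sum_neg_distrib] at h1
  linarith

theorem phi_h0G {Ω : Type} [Field Ω] [NumberField Ω] [IsGalois ℚ Ω] {ι : Ω →+* ℂ}
    (hG : Big Gal(Ω/ℚ)) {c h₀ : Gal(Ω/ℚ)} (hc : ∀ x, ι (c x) = starRingEnd ℂ (ι x))
    {δ : Gal(Ω/ℚ) →* Gal(Ω/ℚ)} (hδ : ∀ g, δ g = ⁅g, c⁆) {n : ℕ} (hD : Nat.card δ.range = 2 ^ n)
    {b₀ : Gal(Ω/ℚ) →* ℤˣ} (hb₀ : ∀ x ∈ Subgroup.center Gal(Ω/ℚ), b₀ x = 1) (hb₀c : b₀ c = -1)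
    {a : δ.range →* ℤˣ} (ha : a ≠ 1) {f : ℕ} [NeZero f] (hf : 2 < f) {ζ : Ω}
    (hζ : IsPrimitiveRoot ζ f) (hιζ : ι ζ = Complex.exp (2 * Real.pi * Complex.I / f))
    (hcen : ∀ g, h₀ * g = g * h₀) {n₀ : ℕ} (hn₀ : Odd n₀)
    (hroot : ∀ ξ : Ω, ∀ m : ℕ, 0 < m → ξ ^ m = 1 → h₀ ξ = ξ ^ n₀)
    {ψ : (δ.range →* ℤˣ) → Gal(Ω/ℚ) → ℝ} (hpair : HPair ψ)
    (hmem : ∀ e, ∀ τ ∈ (bch δ b₀ e).ker, ∀ n : ℕ,
      (∀ ξ : Ω, ∀ m : ℕ, 0 < m → ξ ^ m = 1 → τ ξ = ξ ^ n) → tr τ (ψ e) - n • ψ e ∈ SF ι)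
    {lam : (δ.range →* ℤˣ) → (ZMod f)ˣ → ℤ}
    (hlam : ∀ e g, lam e (hζ.autToPow ℚ g) = ((bch δ b₀ e g : ℤˣ) : ℤ))
    (hnorm : ∀ e g, ∑ᶠ t : δ.range, ψ e (g * t) =
      1 / 2 * ∑ u : (ZMod f)ˣ, (lam e u : ℝ) * hh f (u : ZMod f) *
        ell f ((hζ.autToPow ℚ g * u⁻¹ : (ZMod f)ˣ) : ZMod f)) :
    tr h₀ (2 ^ ((n - 1) / 2 - 1) • Phi a ψ) - n₀ • (2 ^ ((n - 1) / 2 - 1) • Phi a ψ) ∈ SF ι := by
  classical
  have : Finite (δ.range →* ℤˣ) := PhiH0_fin _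
  have : Fintype (δ.range →* ℤˣ) := Fintype.ofFinite _
  have : Fintype δ.range := Fintype.ofFinite _
  have hDC : ∀ t : δ.range, (t : Gal(Ω/ℚ)) ∈ commutator Gal(Ω/ℚ) := fun t => range_le hδ t.2
  have hDcomm : ∀ s t : δ.range, s * t = t * s := fun s t =>
    Subtype.ext (hG.central (hDC s) t)
  have hD2 : ∀ t : δ.range, t * t = 1 := fun t => Subtype.ext (hG.sq_eq_one (hDC t))
  set N : ℕ := Nat.card δ.range with hN
  have hN0 : N ≠ 0 := Nat.card_pos.ne'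
  have hN0r : (N : ℝ) ≠ 0 := by exact_mod_cast hN0
  have hN0z : (N : ℤ) ≠ 0 := by exact_mod_cast hN0
  -- the function `lam₀`
  have hcc : δ c = 1 := by rw [hδ, commutatorElement_self]
  have hh₀ : δ h₀ = 1 := by
    rw [hδ, commutatorElement_def, hcen, mul_inv_cancel_right, mul_inv_cancel]
  have hh₀Z : h₀ ∈ Subgroup.center Gal(Ω/ℚ) := Subgroup.mem_center_iff.2 fun g => (hcen g).symm
  have hS : ∀ g, ∑ e : δ.range →* ℤˣ, lam e (hζ.autToPow ℚ g) =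
      if δ g = 1 then (N : ℤ) * ((b₀ g : ℤˣ) : ℤ) else 0 := by
    intro g
    have e1 : ∀ e : δ.range →* ℤˣ, lam e (hζ.autToPow ℚ g) =
        ((b₀ g : ℤˣ) : ℤ) * ((e ⟨δ g, ⟨g, rfl⟩⟩ : ℤˣ) : ℤ) := by
      intro e
      rw [hlam, bch_apply, Units.val_mul]
    rw [Finset.sum_congr rfl fun e _ => e1 e, ← Finset.mul_sum]
    split_ifs with h
    · have e2 : (⟨δ g, ⟨g, rfl⟩⟩ : δ.range) = 1 := Subtype.ext h
      rw [e2]
      simp only [map_one, Units.val_one, Finset.sum_const, Finset.card_univ, nsmul_eq_mul, mul_one]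
      rw [← Nat.card_eq_fintype_card, card_dual hDcomm hD2, ← hN, mul_comm]
    · rw [PhiH0_dual hDcomm hD2 (fun h' => h (congrArg Subtype.val h')), mul_zero]
  have hsurj := chi_surjective hζ
  set lam₀ : (ZMod f)ˣ → ℤ := fun u => (∑ e : δ.range →* ℤˣ, lam e u) / (N : ℤ) with hlam₀
  have hlam₀g : ∀ g, lam₀ (hζ.autToPow ℚ g) = if δ g = 1 then ((b₀ g : ℤˣ) : ℤ) else 0 := by
    intro g
    rw [hlam₀]
    simp only
    rw [hS]
    split_ifs
    · rw [Int.mul_ediv_cancel_left _ hN0z]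
    · rw [Int.zero_ediv]
  have hlam₀N : ∀ u, (N : ℤ) * lam₀ u = ∑ e : δ.range →* ℤˣ, lam e u := by
    intro u
    obtain ⟨g, rfl⟩ := hsurj u
    rw [hlam₀g, hS]
    split_ifs
    · rfl
    · rw [mul_zero]
  have hχc : hζ.autToPow ℚ c = -1 := by
    ext
    rw [chi_cc hζ hc]
    rfl
  have hlam1 : ∀ u, lam₀ (-u) = - lam₀ u := by
    intro u
    obtain ⟨g, rfl⟩ := hsurj u
    have e1 : -(hζ.autToPow ℚ g) = hζ.autToPow ℚ (c * g) := by
      rw [map_mul, hχc, neg_one_mul]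
    rw [e1, hlam₀g, hlam₀g, map_mul δ, hcc, one_mul, map_mul b₀, hb₀c, neg_one_mul]
    split_ifs
    · rw [Units.val_neg]
    · rw [neg_zero]
  have hlam2 : ∀ u, lam₀ (hζ.autToPow ℚ h₀ * u) = lam₀ u := by
    intro u
    obtain ⟨g, rfl⟩ := hsurj u
    rw [← map_mul, hlam₀g, hlam₀g, map_mul δ, hh₀, one_mul, map_mul b₀, hb₀ h₀ hh₀Z, one_mul]
  have hθ := theta_mem (ι := ι) hf hζ hιζ hn₀ (hroot ζ f (by omega) hζ.pow_eq_one) hlam1 hlam2
  set V : Gal(Ω/ℚ) → ℝ := fun g => 1 / 2 * ∑ a : (ZMod f)ˣ, (lam₀ a : ℝ) * hh f (a : ZMod f) *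
    ell f ((hζ.autToPow ℚ g * a⁻¹ : (ZMod f)ˣ) : ZMod f) with hV
  have hVg : ∀ g, ∑ e : δ.range →* ℤˣ, ∑ᶠ t : δ.range, ψ e (g * t) = N * V g := by
    intro g
    have key : ∀ u, ∑ e : δ.range →* ℤˣ, (lam e u : ℝ) = N * (lam₀ u : ℝ) := by
      intro u
      have := congrArg (fun x : ℤ => (x : ℝ)) (hlam₀N u)
      push_cast at this
      exact this.symm
    have key2 : ∀ u : (ZMod f)ˣ, ∑ e : δ.range →* ℤˣ, (lam e u : ℝ) * hh f (u : ZMod f) *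
        ell f ((hζ.autToPow ℚ g * u⁻¹ : (ZMod f)ˣ) : ZMod f) =
        N * ((lam₀ u : ℝ) * hh f (u : ZMod f) *
          ell f ((hζ.autToPow ℚ g * u⁻¹ : (ZMod f)ˣ) : ZMod f)) := by
      intro u
      rw [← Finset.sum_mul, ← Finset.sum_mul, key]
      ring
    rw [Finset.sum_congr rfl fun e _ => hnorm e g, ← Finset.mul_sum, Finset.sum_comm,
      Finset.sum_congr rfl fun u _ => key2 u, ← Finset.mul_sum]
    simp only [hV]
    ring
  -- the functions `v e`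
  set v : (δ.range →* ℤˣ) → Gal(Ω/ℚ) → ℝ := fun e => tr h₀ (ψ e) - n₀ • ψ e with hv
  have hvg : ∀ e g (t : δ.range), v e (g * t) = ψ e (g * h₀ * t) - n₀ * ψ e (g * t) := by
    intro e g t
    rw [hv]
    simp only
    rw [Pi.sub_apply, tr_apply, Pi.smul_apply, nsmul_eq_mul, mul_assoc g, ← hcen, ← mul_assoc g]
  have hvmem : ∀ e, v e ∈ SF ι := by
    intro e
    refine hmem e h₀ ?_ n₀ hroot
    rw [MonoidHom.mem_ker, bch_apply, hb₀ h₀ hh₀Z, one_mul]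
    have e2 : (⟨δ h₀, ⟨h₀, rfl⟩⟩ : δ.range) = 1 := Subtype.ext hh₀
    rw [e2, map_one]
  have hlin : ∀ (χ : δ.range →* ℤˣ) e g, ∑ t : δ.range, (((χ t : ℤˣ) : ℤ) : ℝ) * v e (g * t) =
      ∑ t : δ.range, (((χ t : ℤˣ) : ℤ) : ℝ) * ψ e (g * h₀ * t) -
        n₀ * ∑ t : δ.range, (((χ t : ℤˣ) : ℤ) : ℝ) * ψ e (g * t) := by
    intro χ e g
    rw [Finset.mul_sum, ← Finset.sum_sub_distrib]
    refine Finset.sum_congr rfl fun t _ => ?_
    rw [hvg]
    ring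
  have hvpair : HPair v := by
    intro e e' hne g
    have e1 := hpair e e' hne (g * h₀)
    have e2 := hpair e e' hne g
    simp only [finsum_eq_sum_of_fintype] at e1 e2 ⊢
    rw [hlin, hlin, e1, e2]
  have hvcen : ∃ ν ∈ SF ι, ∀ g, ∑ᶠ e : δ.range →* ℤˣ, ∑ᶠ t : δ.range, v e (g * t) =
      2 ^ n * ν g := by
    refine ⟨tr h₀ V - n₀ • V, hθ, fun g => ?_⟩
    have e1 := hVg g
    have e2 := hVg (g * h₀)
    simp only [finsum_eq_sum_of_fintype] at e1 e2 ⊢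
    have e3 : ∑ e : δ.range →* ℤˣ, ∑ t : δ.range, v e (g * t) =
        (∑ e : δ.range →* ℤˣ, ∑ t : δ.range, ψ e (g * h₀ * t)) -
          n₀ * ∑ e : δ.range →* ℤˣ, ∑ t : δ.range, ψ e (g * t) := by
      rw [Finset.mul_sum, ← Finset.sum_sub_distrib]
      refine Finset.sum_congr rfl fun e _ => ?_
      rw [Finset.mul_sum, ← Finset.sum_sub_distrib]
      exact Finset.sum_congr rfl fun t _ => hvg e g t
    rw [e3, e1, e2, Pi.sub_apply, Pi.smul_apply, tr_apply, nsmul_eq_mul, hD]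
    push_cast
    ring
  have key := phi_div hDcomm hD2 hD ha (S := SF ι) (fun h φ => tr_mem_SF h) hvmem hvpair hvcen
  have hfin : tr h₀ (2 ^ ((n - 1) / 2 - 1) • Phi a ψ) - n₀ • (2 ^ ((n - 1) / 2 - 1) • Phi a ψ) =
      2 ^ ((n - 1) / 2 - 1) • Phi a v := by
    ext g
    rw [Pi.sub_apply, Pi.smul_apply, Pi.smul_apply, tr_apply, Pi.smul_apply, Pi.smul_apply]
    have e1 : Phi a v g = Phi a ψ (g * h₀) - n₀ * Phi a ψ g := by
      unfold Phi
      simp only [finsum_eq_sum_of_fintype]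
      simp_rw [hlin]
      rw [Finset.sum_sub_distrib, ← Finset.mul_sum]
      ring
    rw [e1]
    simp only [nsmul_eq_mul]
    ring
  rw [hfin]
  exact key

theorem phi_memG {Ω : Type} [Field Ω] [NumberField Ω] [IsGalois ℚ Ω] {ι : Ω →+* ℂ}
    {c : Gal(Ω/ℚ)} {δ : Gal(Ω/ℚ) →* Gal(Ω/ℚ)} (hδ : ∀ g, δ g = ⁅g, c⁆)
    {b₀ : Gal(Ω/ℚ) →* ℤˣ} {a : δ.range →* ℤˣ} (ha : a ≠ 1)
    {ψ : (δ.range →* ℤˣ) → Gal(Ω/ℚ) → ℝ}
    (hmem : ∀ e, ∀ τ ∈ (bch δ b₀ e).ker, ∀ n : ℕ,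
      (∀ ξ : Ω, ∀ m : ℕ, 0 < m → ξ ^ m = 1 → τ ξ = ξ ^ n) → tr τ (ψ e) - n • ψ e ∈ SF ι) :
    Nat.card δ.range • Phi a ψ ∈ SF ι := by
  classical
  obtain ⟨t₀, ht₀⟩ := exists_neg ha
  obtain ⟨h₀, hh₀⟩ := t₀.2
  have := Fintype.ofFinite δ.range
  have hfinE : Finite (δ.range →* ℤˣ) := Finite.of_injective _ DFunLike.coe_injective
  have := Fintype.ofFinite (δ.range →* ℤˣ)
  -- each difference is in `SF`
  have hdiff : ∀ e, ψ e - tr (t₀ : Gal(Ω/ℚ)) (ψ e) ∈ SF ι := by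
    intro e
    have h1 := hmem e (t₀ : Gal(Ω/ℚ)) (by
      rw [MonoidHom.mem_ker, ← hh₀, hδ, map_commutatorElement, commutatorElement_def,
        mul_comm (bch δ b₀ e h₀), mul_inv_cancel_right, mul_inv_cancel]) 1 (by
      intro ξ m hm hξ
      have : NeZero m := ⟨hm.ne'⟩
      rw [pow_one, ← hh₀, hδ, commutatorElement_def]
      exact commutator_fixes h₀ c ξ hξ)
    rw [one_smul] at h1
    have h2 := (SF ι).neg_mem h1
    rwa [neg_sub] at h2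
  have hF : ∀ e, (fun g => ∑ t : δ.range, (((a t : ℤˣ) : ℤ) : ℝ) * ψ e (g * t)) ∈ SF ι := by
    intro e
    have h1 : (fun g => ∑ t : δ.range, (((a t : ℤˣ) : ℤ) : ℝ) * ψ e (g * t)) =
        ∑ t ∈ Finset.univ.filter (fun t : δ.range => a t = 1),
          tr (t : Gal(Ω/ℚ)) (ψ e - tr (t₀ : Gal(Ω/ℚ)) (ψ e)) := by
      ext g
      rw [Finset.sum_apply]
      rw [← Finset.sum_filter_add_sum_filter_not Finset.univ (fun t : δ.range => a t = 1)]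
      have e1 : ∑ t ∈ Finset.univ.filter (fun t : δ.range => ¬ a t = 1),
          (((a t : ℤˣ) : ℤ) : ℝ) * ψ e (g * t) =
          ∑ t ∈ Finset.univ.filter (fun t : δ.range => a t = 1),
            (-(ψ e (g * t * t₀))) := by
        refine Finset.sum_bij' (fun t _ => t * t₀⁻¹) (fun t _ => t * t₀) ?_ ?_ ?_ ?_ ?_
        · intro t ht
          rw [Finset.mem_filter] at ht ⊢
          refine ⟨Finset.mem_univ _, ?_⟩
          rw [map_mul, map_inv, ht₀, (Int.units_eq_one_or (a t)).resolve_left ht.2]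
          decide
        · intro t ht
          rw [Finset.mem_filter] at ht ⊢
          refine ⟨Finset.mem_univ _, ?_⟩
          rw [map_mul, ht₀, ht.2]
          decide
        · intro t _
          rw [inv_mul_cancel_right]
        · intro t _
          rw [mul_inv_cancel_right]
        · intro t ht
          rw [Finset.mem_filter] at ht
          rw [(Int.units_eq_one_or (a t)).resolve_left ht.2, Subgroup.coe_mul, Subgroup.coe_inv,
            mul_assoc g, inv_mul_cancel_right]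
          push_cast
          ring
      rw [e1, ← Finset.sum_add_distrib]
      refine Finset.sum_congr rfl fun t ht => ?_
      rw [Finset.mem_filter] at ht
      rw [ht.2, tr_apply, Pi.sub_apply, tr_apply]
      push_cast
      ring
    rw [h1]
    exact sum_mem fun t _ => tr_mem_SF _ (hdiff e)
  have hcard0 : (Nat.card δ.range : ℝ) ≠ 0 := by
    have : Nat.card δ.range ≠ 0 := Nat.card_pos.ne'
    exact_mod_cast this
  have hfin : Nat.card δ.range • Phi a ψ = ∑ e : δ.range →* ℤˣ,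
      (fun g => ∑ t : δ.range, (((a t : ℤˣ) : ℤ) : ℝ) * ψ e (g * t)) := by
    ext g
    rw [Pi.smul_apply, Finset.sum_apply, Phi, finsum_eq_sum_of_fintype]
    simp_rw [finsum_eq_sum_of_fintype]
    rw [nsmul_eq_mul]
    field_simp
  rw [hfin]
  exact sum_mem fun e _ => hF e

end Pool.Agent.StarkRQ.OctG
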