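import Pool.Agent.StarkRQ.Oct.Kron

/-!
# The real unit

Generalisation of `Oct.RealUnit`: `32` is replaced by `2^(n+1)` and `16` by `2^n`. Let `R = tr h₀`. By
induction `R^i Φ - n₀^i Φ ∈ SF`, so
`∑_{i<2^n} R^{2i} Φ ≡ (∑_{i<2^n} n₀^{2i}) Φ ≡ 0` modulo `SF`, as `2^n ∣ ∑_{i<2^n} n₀^{2i}` (`n₀` odd)
and `2^n Φ ∈ SF`. The rest is as in `Oct.RealUnit`.
-/

open NumberField

namespace Pool.Agent.StarkRQ.OctG

open Pool.Agent.StarkRQ.Oct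

set_option linter.unusedSectionVars false

variable {Ω : Type} [Field Ω] [NumberField Ω]

/-- nonzero with `x` and `x⁻¹` integral -/
private def IsU (x : Ω) : Prop := x ≠ 0 ∧ IsIntegral ℤ x ∧ IsIntegral ℤ x⁻¹

private lemma isU_unit (y : (𝓞 Ω)ˣ) : IsU ((y : 𝓞 Ω) : Ω) := by
  have h1 : ((y : 𝓞 Ω) : Ω) * (((y⁻¹ : (𝓞 Ω)ˣ) : 𝓞 Ω) : Ω) = 1 := by
    rw [← map_mul, Units.mul_inv, map_one]
  refine ⟨left_ne_zero_of_mul_eq_one h1, (y : 𝓞 Ω).isIntegral_coe, ?_⟩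
  rw [← eq_inv_of_mul_eq_one_right h1]
  exact ((y⁻¹ : (𝓞 Ω)ˣ) : 𝓞 Ω).isIntegral_coe

private lemma IsU.exists_unit {x : Ω} (h : IsU x) : ∃ y : (𝓞 Ω)ˣ, ((y : 𝓞 Ω) : Ω) = x :=
  ⟨⟨⟨x, h.2.1⟩, ⟨x⁻¹, h.2.2⟩, Subtype.ext (mul_inv_cancel₀ h.1),
    Subtype.ext (inv_mul_cancel₀ h.1)⟩, rfl⟩

private lemma IsU.mul {x y : Ω} (h : IsU x) (h' : IsU y) : IsU (x * y) := by
  refine ⟨mul_ne_zero h.1 h'.1, h.2.1.mul h'.2.1, ?_⟩
  rw [mul_inv]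
  exact h.2.2.mul h'.2.2

private lemma isIntegral_gal {x : Ω} (h : IsIntegral ℤ x) (g : Gal(Ω/ℚ)) : IsIntegral ℤ (g x) :=
  h.map (g : Ω →ₐ[ℚ] Ω).toRingHom.toIntAlgHom

private lemma gal_ne_zero {x : Ω} (h : x ≠ 0) (g : Gal(Ω/ℚ)) : g x ≠ 0 :=
  (map_ne_zero_iff g g.injective).2 h

private lemma IsU.gal {x : Ω} (h : IsU x) (g : Gal(Ω/ℚ)) : IsU (g x) := by
  refine ⟨gal_ne_zero h.1 g, isIntegral_gal h.2.1 g, ?_⟩
  rw [← map_inv₀]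
  exact isIntegral_gal h.2.2 g

private lemma IsU.quot {x : Ω} (h : IsU x) (g : Gal(Ω/ℚ)) : IsIntegral ℤ (g x / x) := by
  rw [div_eq_mul_inv]
  exact (isIntegral_gal h.2.1 g).mul h.2.2

private lemma isU_root {x : Ω} {m : ℕ} (hm : 0 < m) (h : x ^ m = 1) : IsU x := by
  have h0 : x ≠ 0 := by
    rintro rfl
    rw [zero_pow hm.ne'] at h
    exact zero_ne_one h
  refine ⟨h0, ?_, ?_⟩
  · exact IsIntegral.of_pow hm (by rw [h]; exact isIntegral_one)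
  · exact IsIntegral.of_pow hm (by rw [inv_pow, h, inv_one]; exact isIntegral_one)

private lemma norm_root (ι : Ω →+* ℂ) {x : Ω} {m : ℕ} (hm : 0 < m) (h : x ^ m = 1)
    (g : Gal(Ω/ℚ)) : ‖ι (g x)‖ = 1 := by
  have h1 : (ι (g x)) ^ m = 1 := by rw [← map_pow, ← map_pow, h, map_one, map_one]
  have h2 : ‖ι (g x)‖ ^ m = 1 := by rw [← norm_pow, h1, norm_one]
  exact (pow_eq_one_iff_of_nonneg (norm_nonneg _) hm.ne').1 h2

private lemma logF_root (ι : Ω →+* ℂ) {x : Ω} {m : ℕ} (hm : 0 < m) (h : x ^ m = 1) :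
    logF ι x = 0 := by
  ext g
  rw [logF_apply, norm_root ι hm h g, Real.log_one, Pi.zero_apply]

private lemma conj_root {ι : Ω →+* ℂ} {c : Gal(Ω/ℚ)}
    (hc : ∀ x, ι (c x) = starRingEnd ℂ (ι x)) {x : Ω} {m : ℕ} (hm : 0 < m) (h : x ^ m = 1) :
    c x = x⁻¹ := by
  apply ι.injective
  have h1 : ‖ι x‖ = 1 := norm_root ι hm h 1
  rw [hc, map_inv₀, eq_comm]
  apply inv_eq_of_mul_eq_one_right
  rw [Complex.mul_conj, Complex.normSq_eq_norm_sq, h1]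
  simp

private lemma sixteen {n₀ : ℕ} (hn₀ : Odd n₀) (n : ℕ) :
    2 ^ n ∣ ∑ i ∈ Finset.range (2 ^ n), n₀ ^ (2 * i) := by
  induction n with
  | zero => simp
  | succ n ih =>
    have h1 : ∑ i ∈ Finset.range (2 ^ (n + 1)), n₀ ^ (2 * i) =
        (∑ i ∈ Finset.range (2 ^ n), n₀ ^ (2 * i)) * (1 + n₀ ^ (2 * 2 ^ n)) := by
      rw [pow_succ, mul_two, Finset.sum_range_add, mul_add, mul_one, Finset.sum_mul]
      congr 1
      refine Finset.sum_congr rfl fun i _ => ?_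
      rw [← pow_add]
      congr 1
      ring
    rw [h1, pow_succ]
    refine mul_dvd_mul ih ?_
    have h2 : Odd (n₀ ^ (2 * 2 ^ n)) := hn₀.pow
    exact (odd_one.add_odd h2).two_dvd

private lemma sum_even_odd (F : ℕ → ℝ) (q : ℕ) :
    ∑ i ∈ Finset.range q, F (2 * i) + ∑ i ∈ Finset.range q, F (2 * i + 1) =
      ∑ i ∈ Finset.range (2 * q), F i := by
  induction q with
  | zero => simp
  | succ q ih =>
    rw [Finset.sum_range_succ, Finset.sum_range_succ, show 2 * (q + 1) = 2 * q + 1 + 1 by ring,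
      Finset.sum_range_succ, Finset.sum_range_succ, ← ih]
    ring

private lemma tr_pow_mem {ι : Ω →+* ℂ} {h₀ : Gal(Ω/ℚ)} {n₀ : ℕ} {Φ : Gal(Ω/ℚ) → ℝ}
    (h1 : tr h₀ Φ - n₀ • Φ ∈ SF ι) (i : ℕ) : tr (h₀ ^ i) Φ - n₀ ^ i • Φ ∈ SF ι := by
  induction i with
  | zero =>
    have h2 : tr (h₀ ^ 0) Φ - n₀ ^ 0 • Φ = 0 := by
      ext g
      simp
    rw [h2]
    exact (SF ι).zero_mem
  | succ i ih =>
    have h2 : tr (h₀ ^ (i + 1)) Φ - n₀ ^ (i + 1) • Φ =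
        tr h₀ (tr (h₀ ^ i) Φ - n₀ ^ i • Φ) + n₀ ^ i • (tr h₀ Φ - n₀ • Φ) := by
      ext g
      have e1 : g * h₀ * h₀ ^ i = g * h₀ ^ (i + 1) := by rw [mul_assoc, ← pow_succ']
      change Φ (g * h₀ ^ (i + 1)) - n₀ ^ (i + 1) • Φ g =
        (Φ (g * h₀ * h₀ ^ i) - n₀ ^ i • Φ (g * h₀)) + n₀ ^ i • (Φ (g * h₀) - n₀ • Φ g)
      rw [e1]
      simp only [nsmul_eq_mul]
      push_cast
      ring
    rw [h2]
    exact (SF ι).add_mem (tr_mem_SF h₀ ih) ((SF ι).nsmul_mem h1 _)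

theorem exists_real [IsGalois ℚ Ω] {ι : Ω →+* ℂ} {c h₀ : Gal(Ω/ℚ)}
    (hc : ∀ x, ι (c x) = starRingEnd ℂ (ι x)) (hh : ∀ g, h₀ * g = g * h₀) {n : ℕ}
    (hhn : h₀ ^ 2 ^ (n + 1) = 1) {n₀ : ℕ} (hn₀ : Odd n₀) (hroot : ∀ ξ : Ω, ∀ m : ℕ, 0 < m → ξ ^ m = 1 → h₀ ξ = ξ ^ n₀)
    {Φ : Gal(Ω/ℚ) → ℝ} (h1 : tr h₀ Φ - n₀ • Φ ∈ SF ι) (h2 : 2 ^ n • Φ ∈ SF ι)
    (hΦc : tr c Φ = Φ) (hsum : ∑ g, Φ g = 0) (T : Subgroup Gal(Ω/ℚ))
    (hT1 : ∀ t ∈ T, ∀ g, t * g = g * t) (hT2 : ∀ t ∈ T, t * t = 1) (hT3 : ∀ t ∈ T, tr t Φ = Φ)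
    (hT4 : ∀ t ∈ T, ∀ ξ : Ω, ∀ m : ℕ, 0 < m → ξ ^ m = 1 → t ξ = ξ) :
    ∃ y : (𝓞 Ω)ˣ, logF ι ((y : 𝓞 Ω) : Ω) =
        (fun g => ∑ i ∈ Finset.range (2 ^ (n + 1)), Φ (g * h₀ ^ i)) ∧
      c ((y : 𝓞 Ω) : Ω) = ((y : 𝓞 Ω) : Ω) ∧ (∀ t ∈ T, t ((y : 𝓞 Ω) : Ω) = ((y : 𝓞 Ω) : Ω)) ∧
      (h₀ ((y : 𝓞 Ω) : Ω) = ((y : 𝓞 Ω) : Ω) ∨ h₀ ((y : 𝓞 Ω) : Ω) = -((y : 𝓞 Ω) : Ω)) := by
  classical
  have hcomm : ∀ i : ℕ, ∀ g : Gal(Ω/ℚ), h₀ ^ i * g = g * h₀ ^ i := by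
    intro i g
    have h3 : Commute h₀ g := hh g
    exact (h3.pow_left i).eq
  -- the function Ψ
  set Ψ : Gal(Ω/ℚ) → ℝ := ∑ i ∈ Finset.range (2 ^ n), tr (h₀ ^ (2 * i)) Φ with hΨ
  have hΨa : ∀ g, Ψ g = ∑ i ∈ Finset.range (2 ^ n), Φ (g * h₀ ^ (2 * i)) := by
    intro g
    rw [hΨ, Finset.sum_apply]
    rfl
  have hΨm : Ψ ∈ SF ι := by
    obtain ⟨q, hq⟩ := sixteen hn₀ n
    have h3 : Ψ = ∑ i ∈ Finset.range (2 ^ n), (tr (h₀ ^ (2 * i)) Φ - n₀ ^ (2 * i) • Φ) +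
        q • (2 ^ n • Φ) := by
      rw [Finset.sum_sub_distrib, ← Finset.sum_smul, hq, ← mul_smul, mul_comm q (2 ^ n)]
      abel
    rw [h3]
    exact (SF ι).add_mem ((SF ι).sum_mem fun i _ => tr_pow_mem h1 _) ((SF ι).nsmul_mem h2 _)
  have hΨs : ∑ g, Ψ g = 0 := by
    simp only [hΨa]
    rw [Finset.sum_comm]
    refine Finset.sum_eq_zero fun i _ => ?_
    rw [← hsum]
    exact Fintype.sum_equiv (Equiv.mulRight (h₀ ^ (2 * i))) _ _ fun _ => rfl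
  obtain ⟨y₁, hy₁⟩ := exists_unit hΨm hΨs
  set z : Ω := ((y₁ : 𝓞 Ω) : Ω) with hz
  have hzU : IsU z := isU_unit y₁
  have hroots : ∀ s : Gal(Ω/ℚ), tr s Φ = Φ → (∀ i : ℕ, h₀ ^ i * s = s * h₀ ^ i) →
      ∃ m : ℕ, 0 < m ∧ (s z / z) ^ m = 1 := by
    intro s hs hsc
    refine root_of_logF_eq (ι := ι) (gal_ne_zero hzU.1 s) hzU.1 (hzU.gal s).quot hzU.quot ?_
    rw [logF_smul, ← hy₁]
    ext g
    rw [tr_apply, hΨa, hΨa]
    refine Finset.sum_congr rfl fun i _ => ?_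
    rw [mul_assoc, ← hsc, ← mul_assoc]
    exact congrFun hs _
  obtain ⟨m, hm, hvm⟩ := hroots c hΦc fun i => hcomm i c
  set v : Ω := c z / z with hv
  have hcz : c z = v * z := by rw [hv, div_mul_cancel₀ _ hzU.1]
  obtain ⟨k, hk⟩ : ∃ k, 1 + n₀ = 2 * k := by
    obtain ⟨b, hb⟩ := hn₀
    exact ⟨b + 1, by omega⟩
  have hvk : (v ^ k) ^ m = 1 := by rw [← pow_mul, mul_comm, pow_mul, hvm, one_pow]
  have hgg : ∀ (a b : Gal(Ω/ℚ)) (x : Ω), a (b x) = (a * b) x := fun _ _ _ => rfl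
  -- the unit
  set y : Ω := v ^ k * (z * h₀ z) with hy
  have hyU : IsU y := (isU_root hm hvk).mul (hzU.mul (hzU.gal h₀))
  have hcy : c y = y := by
    have h3 : c (h₀ z) = v ^ n₀ * h₀ z := by
      rw [hgg, ← hh c, ← hgg, hcz, map_mul, hroot v m hm hvm]
    rw [hy, map_mul, map_mul, conj_root hc hm hvk, hcz, h3]
    have h4 : v * z * (v ^ n₀ * h₀ z) = (v ^ k) ^ 2 * (z * h₀ z) := by
      rw [← pow_mul, mul_comm k 2, ← hk, pow_add, pow_one]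
      ring
    rw [h4, sq, ← mul_assoc, inv_mul_cancel_left₀ (isU_root hm hvk).1]
  have hty : ∀ t ∈ T, t y = y := by
    intro t ht
    obtain ⟨m', hm', hvm'⟩ := hroots t (hT3 t ht) fun i => (hT1 t ht _).symm
    set w : Ω := t z / z with hw
    have htz : t z = w * z := by rw [hw, div_mul_cancel₀ _ hzU.1]
    have h3 : w * w = 1 := by
      have h4 : t (t z) = z := by rw [hgg, hT2 t ht]; rfl
      rw [htz, map_mul, hT4 t ht w m' hm' hvm', htz, ← mul_assoc] at h4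
      exact mul_right_cancel₀ hzU.1 (h4.trans (one_mul z).symm)
    have h5 : h₀ w = w := by
      rcases mul_self_eq_one_iff.1 h3 with h6 | h6
      · rw [h6, map_one]
      · rw [h6, map_neg, map_one]
    have h6 : t (h₀ z) = w * h₀ z := by
      rw [hgg, ← hh t, ← hgg, htz, map_mul, h5]
    rw [hy, map_mul, map_mul, hT4 t ht _ m hm hvk, htz, h6]
    calc v ^ k * (w * z * (w * h₀ z)) = (w * w) * (v ^ k * (z * h₀ z)) := by ring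
      _ = v ^ k * (z * h₀ z) := by rw [h3, one_mul]
  have hlog : logF ι y = fun g => ∑ i ∈ Finset.range (2 ^ (n + 1)), Φ (g * h₀ ^ i) := by
    rw [hy, logF_mul ι (isU_root hm hvk).1 (mul_ne_zero hzU.1 (gal_ne_zero hzU.1 h₀)),
      logF_root ι hm hvk, zero_add, logF_mul ι hzU.1 (gal_ne_zero hzU.1 h₀), logF_smul, ← hy₁]
    ext g
    rw [Pi.add_apply, tr_apply, hΨa, hΨa]
    have h3 : ∀ i, g * h₀ * h₀ ^ (2 * i) = g * h₀ ^ (2 * i + 1) := by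
      intro i
      rw [mul_assoc, ← pow_succ']
    simp only [h3]
    rw [sum_even_odd (fun i => Φ (g * h₀ ^ i)) (2 ^ n), ← pow_succ']
  obtain ⟨u, hu⟩ := hyU.exists_unit
  refine ⟨u, ?_, ?_, ?_, ?_⟩
  · rw [hu, hlog]
  · rw [hu, hcy]
  · intro t ht
    rw [hu, hty t ht]
  · rw [hu]
    obtain ⟨m', hm', hr⟩ : ∃ m : ℕ, 0 < m ∧ (h₀ y / y) ^ m = 1 := by
      refine root_of_logF_eq (ι := ι) (gal_ne_zero hyU.1 h₀) hyU.1 (hyU.gal h₀).quot hyU.quot ?_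
      rw [logF_smul, hlog]
      ext g
      rw [tr_apply]
      have h3 : ∀ i, g * h₀ * h₀ ^ i = g * h₀ ^ (i + 1) := by
        intro i
        rw [mul_assoc, ← pow_succ']
      simp only [h3]
      have h4 := Finset.sum_range_succ' (fun i => Φ (g * h₀ ^ i)) (2 ^ (n + 1))
      have h5 := Finset.sum_range_succ (fun i => Φ (g * h₀ ^ i)) (2 ^ (n + 1))
      rw [hhn] at h5
      rw [h5] at h4
      simp only [pow_zero] at h4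
      exact (add_right_cancel h4).symm
    set r : Ω := h₀ y / y with hrdef
    have hry : h₀ y = r * y := by rw [hrdef, div_mul_cancel₀ _ hyU.1]
    have hrU := isU_root hm' hr
    have h3 : c r = r := by
      rw [hrdef, map_div₀, hgg, ← hh c, ← hgg, hcy]
    have h4 : r⁻¹ = r := (conj_root hc hm' hr).symm.trans h3
    have h5 : r * r = 1 := by
      nth_rewrite 1 [← h4]
      exact inv_mul_cancel₀ hrU.1
    rcases mul_self_eq_one_iff.1 h5 with h6 | h6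
    · left
      rw [hry, h6, one_mul]
    · right
      rw [hry, h6, neg_one_mul]

end Pool.Agent.StarkRQ.OctG
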