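import Pool.Agent.StarkRQ.Oct.Internal
import Pool.Agent.StarkRQ.OctG.PhiH0
import Pool.Agent.StarkRQ.OctG.RealUnit
import Pool.Agent.StarkRQ.OctG.Descend

/-!
# The theorem for a field with a central automorphism of order `2^d`
-/

open NumberField Module
open scoped commutatorElement

namespace Pool.Agent.StarkRQ.OctG

open Pool.Agent.StarkRQ.Oct

section

variable {Ω K H : Type} [Field Ω] [NumberField Ω] [IsGalois ℚ Ω] [Field K] [NumberField K]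
  [Field H] [NumberField H] [Algebra K Ω] [Algebra K H] [Algebra H Ω] [IsScalarTower K H Ω]

/-- The theorem for a field with a central automorphism of order `2^d`, `2^d` the index of the center.
-/
theorem octG_internal [IsTotallyReal K] (hK : finrank ℚ K = 2) [IsAbelianGalois K H]
    (hG : Big Gal(Ω/ℚ)) {d : ℕ} (hidx : (Subgroup.center Gal(Ω/ℚ)).index = 2 ^ d)
    {ι : Ω →+* ℂ} (hH : ∀ y : H, (ι (algebraMap H Ω y)).im = 0)
    {f : ℕ} [NeZero f] (hf : 2 < f) {ζ : Ω} (hζ : IsPrimitiveRoot ζ f)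
    (hζC : ∀ g : Gal(Ω/ℚ), g ζ = ζ ↔ g ∈ commutator Gal(Ω/ℚ))
    (hram : ∀ p : ℕ, p.Prime → (p : ℤ) ∣ discr Ω → p ∣ f) {h₀ : Gal(Ω/ℚ)}
    (hh : ∀ g, h₀ * g = g * h₀) (hhd : h₀ ^ 2 ^ d = 1) {n₀ : ℕ} (hn₀ : Odd n₀)
    (hroot : ∀ ξ : Ω, ∀ m : ℕ, 0 < m → ξ ^ m = 1 → h₀ ξ = ξ ^ n₀)
    (hhH : ∀ y : H, h₀ (algebraMap H Ω y) = algebraMap H Ω y)
    (hfree : ∀ c : Gal(Ω/ℚ), (∀ x, ι (c x) = starRingEnd ℂ (ι x)) →
      ∀ i j : ℕ, h₀ ^ i * c ^ j ∈ commutator Gal(Ω/ℚ) → 2 ^ d ∣ i ∧ 2 ∣ j)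
    (hStark : ∀ B : Subgroup Gal(Ω/ℚ), B.index = 2 → Subgroup.center Gal(Ω/ℚ) ≤ B →
      IsTotallyComplex (kF B) → ∃ η : LF B, IsStarkUnit (kF B) (ι.comp (algebraMap (LF B) Ω)) f η)
    (G : Gal(H/K) → ℂ → ℂ) (hGz : ∀ σ, IsPartialZeta f σ (G σ)) :
    ∃ R : Gal(H/K), ∃ ε : Gal(H/K) → (𝓞 H)ˣ,
      (∀ σ, ι (algebraMap H Ω (ε σ : 𝓞 H)) =
          Complex.exp (-(2 ^ (d / 2 - 2) * (deriv (G σ) 0 - deriv (G (R * σ)) 0)))) ∧
      (∀ ρ σ, ρ ((ε σ : 𝓞 H) : H) = ((ε (ρ * σ) : 𝓞 H) : H)) ∧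
      (∃ (E : Type) (_ : Field E) (_ : Algebra K E) (_ : Algebra H E) (_ : IsScalarTower K H E),
        IsAbelianGalois K E ∧ ∀ σ, ∃ y : E, y ^ 2 = algebraMap H E ((ε σ : 𝓞 H) : H)) ∧
      ∀ g : H →+* ℂ, (∃ x : K, g (algebraMap K H x) ≠ ι (algebraMap K Ω x)) →
        (∀ y, g (R y) = starRingEnd ℂ (g y)) ∧ ∀ σ, ‖g ((ε σ : 𝓞 H) : H)‖ = 1 := by
  classical
  have hf0 : f ≠ 0 := by omega
  obtain ⟨c, hc⟩ := exists_cc ι
  have hcc : c * c = 1 := by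
    ext x
    apply ι.injective
    change ι (c (c x)) = ι x
    rw [hc, hc, Complex.conj_conj]
  have hcK : c ∈ fixG K Ω := cc_mem_fixG hc
  have : IsGalois K Ω := IsGalois.tower_top_of_isGalois ℚ K Ω
  have hAidx : (fixG K Ω).index = 2 := fixG_index (M := Ω) hK
  by_cases htriv : ∃ b, b ∉ fixG K Ω ∧ ⁅b, c⁆ = 1
  · obtain ⟨b, hb, hbc⟩ := htriv
    obtain ⟨R, ε, h1, h2⟩ := oct_trivial hK hH hc hb hbc (fun σ s => (2 : ℂ) ^ (d / 2 - 2) * G σ s)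
    refine ⟨R, ε, fun σ => ?_, h2⟩
    rw [h1]
    simp only [deriv_const_mul_field]
    rw [mul_sub]
  push Not at htriv
  obtain ⟨b, hb⟩ := exists_notMem_fixG (F := K) (M := Ω) hK
  have hbc := htriv b hb
  have hcZ : c ∉ Subgroup.center Gal(Ω/ℚ) := by
    intro h
    apply hbc
    rw [commutatorElement_eq_one_iff_mul_comm]
    exact Subgroup.mem_center_iff.1 h b
  obtain ⟨δ, hδ⟩ := hG.exists_delta c
  obtain ⟨n, rfl⟩ : ∃ n, d = n + 1 := by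
    refine ⟨d - 1, ?_⟩
    have h1 := hG.card_range hcZ hδ
    rw [hidx] at h1
    have h2 : d ≠ 0 := by
      rintro rfl
      rw [pow_zero] at h1
      omega
    omega
  have hD : Nat.card δ.range = 2 ^ n := by
    have h1 := hG.card_range hcZ hδ
    rw [hidx, pow_succ] at h1
    omega
  obtain ⟨b₀, hb₀, hb₀c⟩ := exists_sep (Subgroup.center Gal(Ω/ℚ))
    (fun g => Subgroup.mem_center_iff.2 fun x => (hG.sq g x).symm)
    (fun g h => hG.comm_mem_center g h) hcZ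
  obtain ⟨a, ha⟩ := exists_a (δ := δ) hAidx (by
    intro g hg
    by_contra hgA
    exact htriv g hgA (by rw [← hδ, hg]))
  have ha1 : a ≠ 1 := by
    rintro rfl
    apply hb
    rw [← ha]
    rfl
  -- the root of unity
  obtain ⟨j, j', hζp, hιζ, hjj⟩ := exists_zeta hζ ι
  have hζC' : ∀ g : Gal(Ω/ℚ), g (ζ ^ j) = ζ ^ j ↔ g ∈ commutator Gal(Ω/ℚ) := by
    intro g
    rw [← hζC]
    constructor
    · intro h
      rw [← hjj, map_pow, h]
    · intro h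
      rw [map_pow, h]
  -- the branches
  have hC := bch_c hδ hb₀c
  have hZ := fun e x hx => hG.bch_center hδ hb₀ e (x := x) hx
  have hη : ∀ e : δ.range →* ℤˣ, ∃ η : LF (bch δ b₀ e).ker,
      IsStarkUnit (kF (bch δ b₀ e).ker) (ι.comp (algebraMap (LF (bch δ b₀ e).ker) Ω)) f η := by
    intro e
    have hcq : c ∉ (bch δ b₀ e).ker := by
      rw [MonoidHom.mem_ker, hC e]
      decide
    exact hStark _ (index_ker_of_neg (hC e)) (fun x hx => hZ e x hx)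
      (totallyComplex_kF _ (index_ker_of_neg (hC e)) hc hcq)
  choose η hη using hη
  set ψ : (δ.range →* ℤˣ) → Gal(Ω/ℚ) → ℝ := fun e => psi ι (η e) with hψdef
  have hψ : ∀ e, IsBranch ι f c (bch δ b₀ e) (cQ f (bch δ b₀ e)) (ψ e) := fun e =>
    exists_branch hf0 hram hc (hC e) (hη e)
  obtain ⟨hpair, hvan⟩ := branches_pair hG hf0 hram hδ hb₀ hb₀c hψ
  have hnorm := fun e => branches_norm hG hf hram hζp hζC' hc hδ (hZ e) (hC e) (hψ e)
  choose lam hlam hnorm using hnorm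
  set m := (n - 1) / 2 - 1 with hm
  have h1 : tr h₀ (2 ^ m • Phi a ψ) - n₀ • (2 ^ m • Phi a ψ) ∈ SF ι :=
    phi_h0G hG hc hδ hD hb₀ hb₀c ha1 hf hζp hιζ hh hn₀ hroot hpair (fun e => (hψ e).mem) hlam hnorm
  have h2 : 2 ^ n • (2 ^ m • Phi a ψ) ∈ SF ι := by
    rw [smul_comm, ← hD]
    exact (SF ι).nsmul_mem (phi_memG hδ ha1 (fun e => (hψ e).mem)) _
  have hle : (⁅fixG K Ω, fixG K Ω⁆ : Subgroup Gal(Ω/ℚ)) ≤ commutator Gal(Ω/ℚ) := by
    rw [commutator_def]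
    exact Subgroup.commutator_mono le_top le_top
  have hΦT : ∀ t ∈ ⁅fixG K Ω, fixG K Ω⁆, tr t (Phi a ψ) = Phi a ψ := by
    intro t ht
    exact phi_T hG hδ hb₀ hb₀c a (fun e => (hψ e).tr_N) (by rw [ha]; exact ht)
  have hΦc := phi_c hG hδ a (fun e => (hψ e).tr_c)
  have hsmul : ∀ (x : Gal(Ω/ℚ)) (φ : Gal(Ω/ℚ) → ℝ), tr x φ = φ → tr x (2 ^ m • φ) = 2 ^ m • φ := by
    intro x φ h
    ext g
    have h3 := congrFun h g
    rw [tr_apply] at h3
    rw [tr_apply, Pi.smul_apply, Pi.smul_apply, h3]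
  obtain ⟨y, hy, hcy, hty, hhy⟩ := OctG.exists_real hc hh hhd hn₀ hroot h1 h2
    (hsmul c _ hΦc) (by
      have h3 := phi_sum hG hδ ha1 ψ
      simp only [Pi.smul_apply, ← Finset.smul_sum]
      rw [h3, smul_zero]) ⁅fixG K Ω, fixG K Ω⁆
    (fun t ht g => hG.central (hle ht) g) (fun t ht => hG.sq_eq_one (hle ht))
    (fun t ht => hsmul t _ (hΦT t ht))
    (fun t ht ξ m hm hξ => commutator_root (hle ht) ξ m hm hξ)
  -- the automorphism `R`
  have hzA : ⁅b, c⁆ ∈ fixG K Ω := by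
    rw [← ha, MonoidHom.mem_ker]
    exact char_comm _ b c
  obtain ⟨zK, hzK⟩ := id hzA
  have hRx : ∀ x : H, algebraMap H Ω (AlgEquiv.restrictNormalHom H zK x) =
      ⁅b, c⁆ (algebraMap H Ω x) := by
    intro x
    rw [← hzK]
    exact AlgEquiv.restrictNormal_commutes zK H x
  refine ⟨AlgEquiv.restrictNormalHom H zK, ?_⟩
  have hm' : (n + 1) / 2 - 2 = m := by omega
  rw [hm']
  refine OctG.descend (Δ := fun σ => 2 ^ m * (deriv (G σ) 0 -
      deriv (G (AlgEquiv.restrictNormalHom H zK * σ)) 0)) hK hH hc hh (by positivity) hhd hhH hb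
    hG.comm hG.comm_sq (fun i j h => hfree c hc i j (hle h)) (hsmul c _ hΦc)
    (fun t ht => hsmul t _ (hΦT t ht))
    (fun g hg => by
      rw [Pi.smul_apply, phi_zero hG hδ ha1 hvan (by rw [ha]; exact hg), smul_zero])
    hy hcy hty hhy hRx (fun σ => ?_)
  have h3 := sum_phi hK hG hH hf0 hram hc hcK hb hδ hb₀ hb₀c ha hψ hRx hGz σ
  have hfin : Finite {s : Gal(Ω/K) // ∀ x : H, s (algebraMap H Ω x) = algebraMap H Ω (σ x)} :=
    Subtype.finite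
  simp only [Pi.smul_apply]
  rw [← smul_finsum]
  rw [nsmul_eq_mul, Complex.ofReal_mul, h3]
  push_cast
  ring

end

end Pool.Agent.StarkRQ.OctG
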