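import Pool.Agent.StarkRQ.Oct.LevelN

/-!
# Change of level: numbers (general power of two)
-/

open NumberField Module
open scoped commutatorElement

namespace Pool.Agent.StarkRQ.OctG

open Pool.Agent.StarkRQ.Oct

lemma level_pow_one {f : ℕ} (hf : 4 ∣ f) (k : ℕ) :
    ((1 + f : ℕ) : ZMod (2 ^ k * f)) ^ 2 ^ k = 1 := by
  obtain ⟨t, -, h⟩ := level_pow hf k
  have h1 : (((1 + f) ^ 2 ^ k : ℕ) : ZMod (2 ^ k * f)) =
      ((1 + 2 ^ k * f * t : ℕ) : ZMod (2 ^ k * f)) := by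
    rw [h]
  have h2 : ((2 ^ k * f : ℕ) : ZMod (2 ^ k * f)) = 0 := ZMod.natCast_self _
  have h3 : ((1 + 2 ^ k * f * t : ℕ) : ZMod (2 ^ k * f)) = 1 := by
    rw [Nat.cast_add, Nat.cast_mul (2 ^ k * f) t, h2, zero_mul, add_zero, Nat.cast_one]
  rw [h3] at h1
  rw [← h1, Nat.cast_pow]

lemma level_pow_ne {f : ℕ} (hf : 4 ∣ f) (hf0 : f ≠ 0) (k : ℕ) :
    ((1 + f : ℕ) : ZMod (2 ^ (k + 1) * f)) ^ 2 ^ k ≠ 1 := by
  obtain ⟨t, ht, h⟩ := level_pow hf k
  intro h1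
  have h2 : (((1 + f) ^ 2 ^ k : ℕ) : ZMod (2 ^ (k + 1) * f)) =
      ((1 : ℕ) : ZMod (2 ^ (k + 1) * f)) := by
    rw [Nat.cast_pow, Nat.cast_one]
    exact h1
  rw [h, ZMod.natCast_eq_natCast_iff] at h2
  have h3 : 2 ^ (k + 1) * f ∣ 2 ^ k * f * t := by
    have h4 := (Nat.modEq_iff_dvd' (by omega : 1 ≤ 1 + 2 ^ k * f * t)).1 h2.symm
    rwa [Nat.add_sub_cancel_left] at h4
  have h5 : (2 ^ k * f) * 2 ∣ (2 ^ k * f) * t := by
    have e1 : 2 ^ (k + 1) * f = 2 ^ k * f * 2 := by ring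
    rwa [e1] at h3
  have h6 : 2 ∣ t := Nat.dvd_of_mul_dvd_mul_left (by positivity) h5
  exact (Nat.not_even_iff_odd.2 ht) (even_iff_two_dvd.2 h6)

lemma level_coprime {f : ℕ} (hf : 8 ∣ f) (k : ℕ) : (1 + f).Coprime (2 ^ k * f) := by
  have h1 : (1 + f).Coprime f := by simp
  have h2 : (1 + f).Coprime 2 := by
    rw [Nat.coprime_two_right]
    obtain ⟨m, rfl⟩ := hf
    exact ⟨4 * m, by ring⟩
  exact (h2.pow_right k).mul_right h1

/-- the relation `(1 + f)^i (-1)^j = 1` modulo `2^(k+1) f` -/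
lemma level_free {f : ℕ} (hf : 8 ∣ f) (hf0 : f ≠ 0) {k : ℕ} {u : (ZMod (2 ^ (k + 1) * f))ˣ}
    (hu : (u : ZMod (2 ^ (k + 1) * f)) = ((1 + f : ℕ) : ZMod (2 ^ (k + 1) * f))) {i j : ℕ}
    (h : u ^ i * (-1) ^ j = 1) : 2 ^ (k + 1) ∣ i ∧ 2 ∣ j := by
  have hf4 : 4 ∣ f := dvd_trans (by norm_num) hf
  have hj : Even j := by
    by_contra hodd
    rw [Nat.not_even_iff_odd] at hodd
    rw [hodd.neg_one_pow] at h
    have h1 : u ^ i = -1 := by
      have := congrArg (fun x => -x) h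
      simpa using this
    have h8 : 8 ∣ 2 ^ (k + 1) * f := Dvd.dvd.mul_left hf _
    have h2 := congrArg (fun x : (ZMod (2 ^ (k + 1) * f))ˣ =>
      (ZMod.castHom h8 (ZMod 8)) (x : ZMod (2 ^ (k + 1) * f))) h1
    simp only [Units.val_pow_eq_pow_val, map_pow, hu, map_natCast, Units.val_neg, Units.val_one,
      map_neg, map_one] at h2
    obtain ⟨m, rfl⟩ := hf
    have h3 : ((1 + 8 * m : ℕ) : ZMod 8) = 1 := by
      push_cast
      have : (8 : ZMod 8) = 0 := by decide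
      rw [this, zero_mul, add_zero]
    rw [h3, one_pow] at h2
    exact absurd h2 (by decide)
  refine ⟨?_, even_iff_two_dvd.1 hj⟩
  rw [hj.neg_one_pow, mul_one] at h
  have h1 : orderOf u = 2 ^ (k + 1) := by
    refine orderOf_eq_prime_pow ?_ ?_
    · intro h2
      apply level_pow_ne hf4 hf0 k
      have := congrArg (fun x : (ZMod (2 ^ (k + 1) * f))ˣ => (x : ZMod (2 ^ (k + 1) * f))) h2
      simpa [hu] using this
    · apply Units.ext
      rw [Units.val_pow_eq_pow_val, hu, Units.val_one]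
      exact level_pow_one hf4 (k + 1)
  have h2 := orderOf_dvd_of_pow_eq_one h
  rw [h1] at h2
  exact h2

lemma coprime_level {f : ℕ} (hf : 2 ∣ f) (k : ℕ) (n : ℕ) :
    n.Coprime f ↔ n.Coprime (2 ^ k * f) := by
  constructor
  · intro h
    have h2 : n.Coprime 2 := Nat.Coprime.coprime_dvd_right hf h
    exact (h2.pow_right k).mul_right h
  · intro h
    exact Nat.Coprime.coprime_dvd_right (Dvd.intro_left (2 ^ k) rfl) h

end Pool.Agent.StarkRQ.OctG
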