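import Mathlib

/-!
# The combinatorial lemma for all dimensions

`u e T ∈ S` for subsets `e, T` of `Fin n`, `F u e A = ∑_T (-1)^|A ∩ T| u e T`. If
`F u e (e ∆ e') = F u e' (e ∆ e')` for all `e, e'` and `∑_e F u e ∅ ∈ 2^n S`, then
`∑_e F u e {i₀} ∈ 2^(n-m) S`, `m = max(0, ⌊(n-1)/2⌋ - 1)`.
Proof: `x e e' = F u e (e ∆ e')` is symmetric; its double Moebius transform `A I J` is symmetric and
divisible by `2^|J|`, so by `2^max(|I|, |J|)`; and
`∑_e x e (e ∆ {i₀}) = ∑_e x e e - ∑_(i₀ ∈ I ∩ J) 2^(n - |I ∪ J|) A I J`.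
-/

namespace Pool.Agent.StarkRQ.OctG

open Finset

variable {U : Type*} [AddCommGroup U]

/-- divisible by `2^k` in `S` -/
def Dv (S : AddSubgroup U) (k : ℕ) (x : U) : Prop := ∃ w ∈ S, x = 2 ^ k • w

lemma Dv.add {S : AddSubgroup U} {k : ℕ} {x y : U} (hx : Dv S k x) (hy : Dv S k y) :
    Dv S k (x + y) := by
  obtain ⟨w, hw, rfl⟩ := hx
  obtain ⟨v, hv, rfl⟩ := hy
  exact ⟨w + v, S.add_mem hw hv, (smul_add _ _ _).symm⟩

lemma Dv.neg {S : AddSubgroup U} {k : ℕ} {x : U} (hx : Dv S k x) : Dv S k (-x) := by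
  obtain ⟨w, hw, rfl⟩ := hx
  exact ⟨-w, S.neg_mem hw, (smul_neg _ _).symm⟩

lemma Dv.sub {S : AddSubgroup U} {k : ℕ} {x y : U} (hx : Dv S k x) (hy : Dv S k y) :
    Dv S k (x - y) := by
  rw [sub_eq_add_neg]
  exact hx.add hy.neg

lemma Dv.zero (S : AddSubgroup U) (k : ℕ) : Dv S k 0 := ⟨0, S.zero_mem, (smul_zero _).symm⟩

lemma Dv.mono {S : AddSubgroup U} {k l : ℕ} (h : k ≤ l) {x : U} (hx : Dv S l x) : Dv S k x := by
  obtain ⟨w, hw, rfl⟩ := hx
  refine ⟨2 ^ (l - k) • w, S.nsmul_mem hw _, ?_⟩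
  rw [smul_smul, ← pow_add, Nat.add_sub_cancel' h]

lemma Dv.smul {S : AddSubgroup U} {k : ℕ} {x : U} (j : ℕ) (hx : Dv S k x) :
    Dv S (j + k) (2 ^ j • x) := by
  obtain ⟨w, hw, rfl⟩ := hx
  exact ⟨w, hw, by rw [smul_smul, ← pow_add]⟩

lemma Dv.zsmul {S : AddSubgroup U} {k : ℕ} {x : U} (j : ℤ) (hx : Dv S k x) : Dv S k (j • x) := by
  obtain ⟨w, hw, rfl⟩ := hx
  exact ⟨j • w, S.zsmul_mem hw j, smul_comm _ _ _⟩

lemma two_zpow_smul (k : ℕ) (x : U) : ((2 : ℤ) ^ k) • x = (2 ^ k : ℕ) • x := by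
  rw [← natCast_zsmul]
  push_cast
  rfl

lemma Dv.sum {S : AddSubgroup U} {k : ℕ} {ι : Type*} (s : Finset ι) (f : ι → U)
    (h : ∀ i ∈ s, Dv S k (f i)) : Dv S k (∑ i ∈ s, f i) := by
  classical
  induction s using Finset.induction_on with
  | empty => rw [Finset.sum_empty]; exact Dv.zero S k
  | insert a s ha ih =>
    rw [Finset.sum_insert ha]
    exact (h a (Finset.mem_insert_self a s)).add
      (ih fun i hi => h i (Finset.mem_insert_of_mem hi))

variable {n : ℕ}

/-- the Moebius transform -/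
def mob (f : Finset (Fin n) → U) (J : Finset (Fin n)) : U :=
  ∑ J' ∈ J.powerset, ((-1 : ℤ) ^ (J \ J').card) • f J'

/-- the signed sum over an interval -/
lemma sum_interval {A B : Finset (Fin n)} (h : A ⊆ B) :
    ∑ J ∈ B.powerset.filter (fun J => A ⊆ J), ((-1 : ℤ) ^ (B \ J).card) = if A = B then 1 else 0 := by
  classical
  have h1 : ∑ J ∈ B.powerset.filter (fun J => A ⊆ J), ((-1 : ℤ) ^ (B \ J).card) =
      ∑ T ∈ (B \ A).powerset, (-1 : ℤ) ^ T.card := by
    refine Finset.sum_bij' (fun J _ => B \ J) (fun T _ => B \ T) ?_ ?_ ?_ ?_ ?_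
    · intro J hJ
      rw [mem_filter, mem_powerset] at hJ
      rw [mem_powerset]
      exact sdiff_subset_sdiff (le_refl _) hJ.2
    · intro T hT
      rw [mem_powerset] at hT
      rw [mem_filter, mem_powerset]
      refine ⟨sdiff_subset, ?_⟩
      intro x hx
      rw [mem_sdiff]
      refine ⟨h hx, fun hxT => ?_⟩
      exact (mem_sdiff.1 (hT hxT)).2 hx
    · intro J hJ
      rw [mem_filter, mem_powerset] at hJ
      exact Finset.sdiff_sdiff_eq_self hJ.1
    · intro T hT
      rw [mem_powerset] at hT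
      exact Finset.sdiff_sdiff_eq_self (hT.trans sdiff_subset)
    · intro J hJ
      rfl
  rw [h1, Finset.sum_powerset_neg_one_pow_card]
  by_cases hAB : A = B
  · subst hAB
    simp
  · rw [if_neg hAB, if_neg]
    rw [sdiff_eq_empty_iff_subset]
    exact fun h2 => hAB (h.antisymm h2)

/-- Moebius inversion -/
lemma sum_mob (f : Finset (Fin n) → U) (B : Finset (Fin n)) :
    ∑ J ∈ B.powerset, mob f J = f B := by
  classical
  unfold mob
  have h1 : ∀ J ∈ B.powerset, ∑ J' ∈ J.powerset, ((-1 : ℤ) ^ (J \ J').card) • f J' =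
      ∑ J' ∈ B.powerset, if J' ⊆ J then ((-1 : ℤ) ^ (J \ J').card) • f J' else 0 := by
    intro J hJ
    rw [mem_powerset] at hJ
    rw [← Finset.sum_filter]
    refine Finset.sum_congr ?_ fun _ _ => rfl
    ext J'
    rw [mem_filter, mem_powerset, mem_powerset]
    exact ⟨fun h => ⟨h.trans hJ, h⟩, fun h => h.2⟩
  rw [Finset.sum_congr rfl h1, Finset.sum_comm]
  have h2 : ∀ J' ∈ B.powerset, ∑ J ∈ B.powerset,
      (if J' ⊆ J then ((-1 : ℤ) ^ (J \ J').card) • f J' else 0) = if J' = B then f B else 0 := by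
    intro J' hJ'
    rw [mem_powerset] at hJ'
    rw [← Finset.sum_filter, ← Finset.sum_smul]
    have h3 : ∑ J ∈ B.powerset.filter (fun J => J' ⊆ J), ((-1 : ℤ) ^ (J \ J').card) =
        ∑ J ∈ B.powerset.filter (fun J => J' ⊆ J), ((-1 : ℤ) ^ (B \ J').card) *
          ((-1 : ℤ) ^ (B \ J).card) := by
      refine Finset.sum_congr rfl fun J hJ => ?_
      rw [mem_filter, mem_powerset] at hJ
      have h4 : (B \ J').card = (B \ J).card + (J \ J').card := by
        rw [← Finset.card_union_of_disjoint]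
        · congr 1
          ext x
          simp only [mem_union, mem_sdiff]
          constructor
          · rintro ⟨h5, h6⟩
            by_cases h7 : x ∈ J
            · exact Or.inr ⟨h7, h6⟩
            · exact Or.inl ⟨h5, h7⟩
          · rintro (⟨h5, h6⟩ | ⟨h5, h6⟩)
            · exact ⟨h5, fun h7 => h6 (hJ.2 h7)⟩
            · exact ⟨hJ.1 h5, h6⟩
        · rw [Finset.disjoint_left]
          intro x hx hx'
          exact (mem_sdiff.1 hx).2 (mem_sdiff.1 hx').1
      rw [h4, pow_add]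
      have h5 : ((-1 : ℤ) ^ (B \ J).card) * ((-1 : ℤ) ^ (B \ J).card) = 1 := by
        rw [← pow_add, ← two_mul, pow_mul]
        norm_num
      linear_combination (-((-1 : ℤ) ^ (J \ J').card)) * h5
    rw [h3, ← Finset.mul_sum, sum_interval hJ']
    split_ifs with h6
    · subst h6
      simp
    · simp
  rw [Finset.sum_congr rfl h2, Finset.sum_ite_eq' B.powerset B]
  simp

/-- the Moebius transform of a sum over subsets -/
lemma mob_sum (g : Finset (Fin n) → U) (B : Finset (Fin n)) :
    mob (fun e => ∑ J ∈ e.powerset, g J) B = g B := by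
  classical
  unfold mob
  have h1 : ∀ e ∈ B.powerset, ((-1 : ℤ) ^ (B \ e).card) • ∑ J ∈ e.powerset, g J =
      ∑ J ∈ B.powerset, if J ⊆ e then ((-1 : ℤ) ^ (B \ e).card) • g J else 0 := by
    intro e he
    rw [mem_powerset] at he
    rw [← Finset.sum_filter, Finset.smul_sum]
    refine Finset.sum_congr ?_ fun _ _ => rfl
    ext J
    rw [mem_filter, mem_powerset, mem_powerset]
    exact ⟨fun h => ⟨h.trans he, h⟩, fun h => h.2⟩
  rw [Finset.sum_congr rfl h1, Finset.sum_comm]
  have h2 : ∀ J ∈ B.powerset, ∑ e ∈ B.powerset,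
      (if J ⊆ e then ((-1 : ℤ) ^ (B \ e).card) • g J else 0) = if J = B then g B else 0 := by
    intro J hJ
    rw [mem_powerset] at hJ
    rw [← Finset.sum_filter, ← Finset.sum_smul, sum_interval hJ]
    split_ifs with h6
    · subst h6
      simp
    · simp
  rw [Finset.sum_congr rfl h2, Finset.sum_ite_eq' B.powerset B]
  simp

/-- `∑_T (-1)^|A ∩ T| u e T` -/
def F (u : Finset (Fin n) → Finset (Fin n) → U) (e A : Finset (Fin n)) : U :=
  ∑ T, ((-1 : ℤ) ^ (A ∩ T).card) • u e T

lemma sign_expand (A T : Finset (Fin n)) :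
    ((-1 : ℤ) ^ (A ∩ T).card) = ∑ J ∈ A.powerset, if J ⊆ T then (-2 : ℤ) ^ J.card else 0 := by
  classical
  rw [← Finset.sum_filter]
  have h1 : A.powerset.filter (fun J => J ⊆ T) = (A ∩ T).powerset := by
    ext J
    rw [mem_filter, mem_powerset, mem_powerset, subset_inter_iff]
  rw [h1]
  have h2 := Finset.sum_pow_mul_eq_add_pow (-2 : ℤ) 1 (A ∩ T)
  simp only [one_pow, mul_one] at h2
  rw [h2]
  norm_num

lemma sign_symmDiff (e e' T : Finset (Fin n)) :
    ((-1 : ℤ) ^ ((symmDiff e e') ∩ T).card) =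
      ((-1 : ℤ) ^ (e ∩ T).card) * ((-1 : ℤ) ^ (e' ∩ T).card) := by
  classical
  have h1 : (symmDiff e e') ∩ T = symmDiff (e ∩ T) (e' ∩ T) := by
    ext x
    simp only [mem_inter, mem_symmDiff]
    tauto
  rw [h1]
  have h2 : (e ∩ T).card + (e' ∩ T).card =
      (symmDiff (e ∩ T) (e' ∩ T)).card + 2 * ((e ∩ T) ∩ (e' ∩ T)).card := by
    have h3 := Finset.card_sdiff_add_card_inter (e ∩ T) (e' ∩ T)
    have h4 := Finset.card_sdiff_add_card_inter (e' ∩ T) (e ∩ T)
    rw [Finset.inter_comm (e' ∩ T)] at h4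
    have h5 : (symmDiff (e ∩ T) (e' ∩ T)).card =
        ((e ∩ T) \ (e' ∩ T)).card + ((e' ∩ T) \ (e ∩ T)).card := by
      rw [symmDiff, Finset.sup_eq_union, Finset.card_union_of_disjoint]
      exact disjoint_sdiff_sdiff
    omega
  rw [← pow_add, h2, pow_add, pow_mul]
  norm_num

/-- the transform of `x e` is divisible by `2^|J|` -/
lemma mob_F {S : AddSubgroup U} {u : Finset (Fin n) → Finset (Fin n) → U}
    (hu : ∀ e T, u e T ∈ S) (e J : Finset (Fin n)) :
    Dv S J.card (mob (fun e' => F u e (symmDiff e e')) J) := by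
  classical
  have h1 : (fun e' => F u e (symmDiff e e')) = fun e' : Finset (Fin n) =>
      ∑ J ∈ e'.powerset, ((-2 : ℤ) ^ J.card) • ∑ T, (if J ⊆ T then
        ((-1 : ℤ) ^ (e ∩ T).card) • u e T else 0) := by
    funext e'
    unfold F
    simp_rw [sign_symmDiff, sign_expand e', Finset.mul_sum, Finset.sum_smul, Finset.smul_sum]
    rw [Finset.sum_comm]
    refine Finset.sum_congr rfl fun J _ => Finset.sum_congr rfl fun T _ => ?_
    split_ifs
    · rw [smul_smul, mul_comm]
    · rw [mul_zero, zero_smul, smul_zero]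
  rw [h1, mob_sum]
  have h2 : ((-2 : ℤ) ^ J.card) = (-1) ^ J.card * 2 ^ J.card := by
    rw [← mul_pow]
    norm_num
  refine ⟨((-1 : ℤ) ^ J.card) • ∑ T, (if J ⊆ T then ((-1 : ℤ) ^ (e ∩ T).card) • u e T else 0),
    S.zsmul_mem (S.sum_mem fun T _ => ?_) _, ?_⟩
  · split_ifs
    · exact S.zsmul_mem (hu e T) _
    · exact S.zero_mem
  · rw [h2, mul_comm, mul_smul, two_zpow_smul]

/-- the double Moebius transform -/
def A (x : Finset (Fin n) → Finset (Fin n) → U) (I J : Finset (Fin n)) : U :=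
  mob (fun e => mob (x e) J) I

lemma A_symm {x : Finset (Fin n) → Finset (Fin n) → U} (hx : ∀ e e', x e e' = x e' e)
    (I J : Finset (Fin n)) : A x I J = A x J I := by
  unfold A mob
  simp_rw [Finset.smul_sum]
  rw [Finset.sum_comm]
  refine Finset.sum_congr rfl fun J' _ => Finset.sum_congr rfl fun I' _ => ?_
  rw [smul_comm, hx]

lemma sum_A (x : Finset (Fin n) → Finset (Fin n) → U) (e e' : Finset (Fin n)) :
    ∑ I ∈ e.powerset, ∑ J ∈ e'.powerset, A x I J = x e e' := by
  rw [Finset.sum_comm]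
  unfold A
  simp_rw [sum_mob]

lemma Dv.mob {S : AddSubgroup U} {k : ℕ} {f : Finset (Fin n) → U} (hf : ∀ e, Dv S k (f e))
    (J : Finset (Fin n)) : Dv S k (mob f J) := by
  unfold OctG.mob
  exact Dv.sum _ _ fun e _ => (hf e).zsmul _

/-- number of supersets -/
lemma card_super (K : Finset (Fin n)) :
    (univ.filter (fun e : Finset (Fin n) => K ⊆ e)).card = 2 ^ (n - K.card) := by
  classical
  have h1 : univ.filter (fun e : Finset (Fin n) => K ⊆ e) = Finset.Icc K univ := by
    ext e
    simp [Finset.mem_Icc]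
  rw [h1, Finset.card_Icc_finset (subset_univ K), Finset.card_univ, Fintype.card_fin]

/-- a symmetric function summed over the off-diagonal pairs -/
lemma sum_offdiag {ι : Type*} [Fintype ι] [DecidableEq ι] {S : AddSubgroup U} {k : ℕ}
    (a : ι → ι → U) (hs : ∀ i j, a i j = a j i) (h : ∀ i j, i ≠ j → Dv S k (a i j)) :
    Dv S (k + 1) (∑ i, ∑ j, if i = j then 0 else a i j) := by
  classical
  let φ := Fintype.equivFin ι
  have h1 : ∀ i j, (if i = j then 0 else a i j) =
      (if φ i < φ j then a i j else 0) + (if φ j < φ i then a i j else 0) := by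
    intro i j
    rcases lt_trichotomy (φ i) (φ j) with h2 | h2 | h2
    · have h3 : i ≠ j := fun h => by rw [h] at h2; exact lt_irrefl _ h2
      rw [if_neg h3, if_pos h2, if_neg (not_lt.2 h2.le), add_zero]
    · have h3 : i = j := φ.injective h2
      rw [if_pos h3, if_neg (not_lt.2 h2.ge), if_neg (not_lt.2 h2.le), add_zero]
    · have h3 : i ≠ j := fun h => by rw [h] at h2; exact lt_irrefl _ h2
      rw [if_neg h3, if_pos h2, if_neg (not_lt.2 h2.le), zero_add]
  simp_rw [h1, Finset.sum_add_distrib]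
  have h2 : ∑ i, ∑ j, (if φ j < φ i then a i j else 0) = ∑ i, ∑ j, (if φ i < φ j then a i j else 0) := by
    rw [Finset.sum_comm]
    refine Finset.sum_congr rfl fun i _ => Finset.sum_congr rfl fun j _ => ?_
    rw [hs]
  rw [h2, ← two_smul ℕ]
  have h3 : Dv S k (∑ i, ∑ j, (if φ i < φ j then a i j else 0)) := by
    refine Dv.sum _ _ fun i _ => Dv.sum _ _ fun j _ => ?_
    split_ifs with h4
    · exact h i j fun h5 => by rw [h5] at h4; exact lt_irrefl _ h4
    · exact Dv.zero S k
  have h4 := h3.smul 1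
  rw [pow_one, add_comm] at h4
  exact h4

/-- the main lemma -/
theorem exists_div {S : AddSubgroup U} {u : Finset (Fin n) → Finset (Fin n) → U}
    (hu : ∀ e T, u e T ∈ S)
    (hpair : ∀ e e', F u e (symmDiff e e') = F u e' (symmDiff e e'))
    (hcen : Dv S n (∑ e, F u e ∅)) (i₀ : Fin n) :
    Dv S (n - ((n - 1) / 2 - 1)) (∑ e, F u e {i₀}) := by
  classical
  set x : Finset (Fin n) → Finset (Fin n) → U := fun e e' => F u e (symmDiff e e') with hx
  have hxs : ∀ e e', x e e' = x e' e := by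
    intro e e'
    rw [hx]
    simp only
    rw [hpair, symmDiff_comm]
  have hdv : ∀ I J, Dv S (max I.card J.card) (A x I J) := by
    have h1 : ∀ I J, Dv S J.card (A x I J) := fun I J =>
      Dv.mob (fun e => mob_F hu e J) I
    intro I J
    rcases le_total I.card J.card with h | h
    · rw [max_eq_right h]
      exact h1 I J
    · rw [max_eq_left h, A_symm hxs]
      exact h1 J I
  -- the two sums
  have hsum : ∀ g : Finset (Fin n) → Finset (Fin n), ∑ e, x e (g e) =
      ∑ I, ∑ J, (univ.filter (fun e => I ⊆ e ∧ J ⊆ g e)).card • A x I J := by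
    intro g
    have h1 : ∀ e, x e (g e) = ∑ I, ∑ J, if I ⊆ e ∧ J ⊆ g e then A x I J else 0 := by
      intro e
      rw [← sum_A x e (g e), ← Finset.sum_subset (subset_univ e.powerset)]
      · refine Finset.sum_congr rfl fun I hI => ?_
        rw [mem_powerset] at hI
        rw [← Finset.sum_filter]
        refine Finset.sum_congr ?_ fun _ _ => rfl
        ext J
        simp [hI]
      · intro I _ hI
        rw [mem_powerset] at hI
        exact Finset.sum_eq_zero fun J _ => if_neg fun h => hI h.1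
    simp_rw [h1]
    rw [Finset.sum_comm]
    refine Finset.sum_congr rfl fun I _ => ?_
    rw [Finset.sum_comm]
    refine Finset.sum_congr rfl fun J _ => ?_
    rw [← Finset.sum_filter, Finset.sum_const]
  have hN0 : ∀ I J : Finset (Fin n), (univ.filter (fun e => I ⊆ e ∧ J ⊆ e)).card =
      2 ^ (n - (I ∪ J).card) := by
    intro I J
    rw [← card_super]
    congr 1
    ext e
    simp only [mem_filter, mem_univ, true_and]
    exact (union_subset_iff).symm
  have hd1 : ∀ (e : Finset (Fin n)) (y : Fin n), y ≠ i₀ → (y ∈ symmDiff e {i₀} ↔ y ∈ e) := by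
    intro e y hy
    rw [mem_symmDiff, mem_singleton]
    tauto
  have hd2 : ∀ (e : Finset (Fin n)), (i₀ ∈ symmDiff e {i₀} ↔ i₀ ∉ e) := by
    intro e
    rw [mem_symmDiff, mem_singleton]
    tauto
  have hsub : ∀ (J e : Finset (Fin n)), i₀ ∉ J → (J ⊆ symmDiff e {i₀} ↔ J ⊆ e) := by
    intro J e hJ
    constructor
    · intro h y hy
      exact (hd1 e y fun h2 => hJ (h2 ▸ hy)).1 (h hy)
    · intro h y hy
      exact (hd1 e y fun h2 => hJ (h2 ▸ hy)).2 (h hy)
  have hN1 : ∀ I J : Finset (Fin n), (univ.filter (fun e => I ⊆ e ∧ J ⊆ symmDiff e {i₀})).card =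
      if i₀ ∈ I ∧ i₀ ∈ J then 0 else 2 ^ (n - (I ∪ J).card) := by
    intro I J
    split_ifs with h
    · rw [Finset.card_eq_zero]
      ext e
      simp only [mem_filter, mem_univ, true_and, notMem_empty, iff_false]
      rintro ⟨h1, h2⟩
      exact (hd2 e).1 (h2 h.2) (h1 h.1)
    · rw [← hN0]
      by_cases hJ : i₀ ∈ J
      · have hI : i₀ ∉ I := fun hI => h ⟨hI, hJ⟩
        refine Finset.card_bij' (fun e _ => symmDiff e {i₀}) (fun e _ => symmDiff e {i₀}) ?_ ?_ ?_ ?_
        · intro e he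
          simp only [mem_filter, mem_univ, true_and] at he ⊢
          exact ⟨(hsub I e hI).2 he.1, he.2⟩
        · intro e he
          simp only [mem_filter, mem_univ, true_and] at he ⊢
          refine ⟨(hsub I e hI).2 he.1, ?_⟩
          rw [symmDiff_symmDiff_cancel_right]
          exact he.2
        · intro e _
          exact symmDiff_symmDiff_cancel_right _ _
        · intro e _
          exact symmDiff_symmDiff_cancel_right _ _
      · congr 1
        ext e
        simp only [mem_filter, mem_univ, true_and]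
        rw [hsub J e hJ]
  have hx0 : ∀ e, F u e ∅ = x e e := by
    intro e
    rw [hx]
    simp only
    rw [symmDiff_self]
    rfl
  have hx1 : ∀ e, F u e {i₀} = x e (symmDiff e {i₀}) := by
    intro e
    rw [hx]
    simp only
    rw [symmDiff_symmDiff_cancel_left]
  have hE0 : ∑ e, F u e ∅ = ∑ I, ∑ J, (2 ^ (n - (I ∪ J).card)) • A x I J := by
    simp_rw [hx0]
    rw [hsum (fun e => e)]
    simp_rw [hN0]
  have hE1 : ∑ e, F u e {i₀} = ∑ e, F u e ∅ -
      ∑ I, ∑ J, (if i₀ ∈ I ∧ i₀ ∈ J then (2 ^ (n - (I ∪ J).card)) • A x I J else 0) := by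
    rw [hE0]
    simp_rw [hx1]
    rw [hsum (fun e => symmDiff e {i₀})]
    simp_rw [hN1, ← Finset.sum_sub_distrib]
    refine Finset.sum_congr rfl fun I _ => Finset.sum_congr rfl fun J _ => ?_
    split_ifs
    · rw [zero_smul, sub_self]
    · rw [sub_zero]
  -- the diagonal and the off-diagonal terms
  set a : Finset (Fin n) → Finset (Fin n) → U := fun I J =>
    if i₀ ∈ I ∧ i₀ ∈ J then (2 ^ (n - (I ∪ J).card)) • A x I J else 0 with ha
  have has : ∀ I J, a I J = a J I := by
    intro I J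
    rw [ha]
    simp only
    rw [union_comm, A_symm hxs]
    exact if_congr and_comm rfl rfl
  have hle : ∀ K : Finset (Fin n), K.card ≤ n := by
    intro K
    have := Finset.card_le_univ K
    rwa [Fintype.card_fin] at this
  have hoff : ∀ I J, I ≠ J → Dv S (n - (n - 1) / 2) (a I J) := by
    intro I J hIJ
    rw [ha]
    simp only
    split_ifs with h
    · have h1 := (hdv I J).smul (n - (I ∪ J).card)
      refine h1.mono ?_
      have h2 := Finset.card_union_add_card_inter I J
      have h3 : 0 < (I ∩ J).card := Finset.card_pos.2 ⟨i₀, mem_inter.2 h⟩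
      have h4 := hle (I ∪ J)
      omega
    · exact Dv.zero S _
  have hdiag : ∀ I, Dv S n (a I I) := by
    intro I
    rw [ha]
    simp only
    split_ifs with h
    · have h1 := (hdv I I).smul (n - (I ∪ I).card)
      refine h1.mono ?_
      rw [union_idempotent, max_self]
      have := hle I
      omega
    · exact Dv.zero S _
  have hfin : ∑ I, ∑ J, a I J = (∑ I, a I I) + ∑ I, ∑ J, if I = J then 0 else a I J := by
    rw [← Finset.sum_add_distrib]
    refine Finset.sum_congr rfl fun I _ => ?_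
    have h1 : ∀ J, a I J = (if I = J then a I I else 0) + if I = J then 0 else a I J := by
      intro J
      split_ifs with h
      · rw [h, add_zero]
      · rw [zero_add]
    rw [Finset.sum_congr rfl fun J _ => h1 J, Finset.sum_add_distrib, Finset.sum_ite_eq]
    simp
  rw [hE1, hfin]
  have hn : 0 < n := Nat.pos_of_ne_zero fun h => by subst h; exact i₀.elim0
  refine (hcen.mono (by omega)).sub ((Dv.sum _ _ fun I _ => (hdiag I).mono (by omega)).add ?_)
  exact (sum_offdiag a has hoff).mono (by omega)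

end Pool.Agent.StarkRQ.OctG
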