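import Pool.Agent.StarkRQ.Oct.PhiDefs
import Pool.Agent.StarkRQ.OctG.Moebius
import Pool.Agent.StarkRQ.OctG.Basis

/-!
# The combinatorial lemma for characters of an elementary abelian `2`-group
-/

namespace Pool.Agent.StarkRQ.OctG

open Pool.Agent.StarkRQ.Oct

private lemma char_sep {D : Type*} [CommGroup D] [Finite D] (h2 : ∀ t : D, t * t = 1) {t : D}
    (ht : t ≠ 1) : ∃ χ : D →* ℤˣ, χ t ≠ 1 := by
  have hexp : Monoid.exponent D ∣ 2 :=
    Monoid.exponent_dvd_of_forall_pow_eq_one fun t => by rw [pow_two]; exact h2 t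
  have h : HasEnoughRootsOfUnity ℤ 2 :=
    { prim := ⟨-1, by
        have := IsPrimitiveRoot.neg_one (R := ℤ) 0 (by norm_num)
        exact this⟩
      cyc := rootsOfUnity.isCyclic ℤ 2 }
  have := HasEnoughRootsOfUnity.of_dvd ℤ hexp
  exact CommGroup.exists_apply_ne_one_of_hasEnoughRootsOfUnity D ℤ ht

private lemma card_chars {D : Type*} [CommGroup D] [Finite D] (h2 : ∀ t : D, t * t = 1) :
    Nat.card (D →* ℤˣ) = Nat.card D := by
  have hexp : Monoid.exponent D ∣ 2 :=
    Monoid.exponent_dvd_of_forall_pow_eq_one fun t => by rw [pow_two]; exact h2 t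
  have h : HasEnoughRootsOfUnity ℤ 2 :=
    { prim := ⟨-1, by
        have := IsPrimitiveRoot.neg_one (R := ℤ) 0 (by norm_num)
        exact this⟩
      cyc := rootsOfUnity.isCyclic ℤ 2 }
  have := HasEnoughRootsOfUnity.of_dvd ℤ hexp
  exact CommGroup.card_monoidHom_of_hasEnoughRootsOfUnity D ℤ

/-- coordinates on an elementary abelian `2`-group and its characters -/
theorem exists_coord {D : Type*} [CommGroup D] [Finite D] (h2 : ∀ t : D, t * t = 1) {n : ℕ}
    (hn : Nat.card D = 2 ^ n) {a : D →* ℤˣ} (ha : a ≠ 1) :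
    ∃ (X : Finset (Fin n) → (D →* ℤˣ)) (τ : Finset (Fin n) → D) (i₀ : Fin n),
      Function.Bijective X ∧ Function.Bijective τ ∧ X {i₀} = a ∧
      (∀ A B, X (symmDiff A B) = X A * X B) ∧
      ∀ A T, ((X A (τ T) : ℤˣ) : ℤ) = (-1) ^ (A ∩ T).card := by
  classical
  have : Finite (D →* ℤˣ) := Finite.of_injective (fun f : D →* ℤˣ => (f : D → ℤˣ))
    DFunLike.coe_injective
  have hV2 : ∀ x : Additive (D →* ℤˣ), 2 • x = 0 := by
    intro x
    rw [two_smul]
    apply Additive.toMul.injective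
    ext t
    rw [toMul_add, toMul_zero]
    simp only [MonoidHom.mul_apply, MonoidHom.one_apply, Int.units_mul_self]
  have hVn : Nat.card (Additive (D →* ℤˣ)) = 2 ^ n := by
    rw [Nat.card_congr Additive.toMul, card_chars h2, hn]
  obtain ⟨b, i₀, hb, hbij⟩ := exists_basis hV2 hVn (a := Additive.ofMul a) (by
    intro h
    exact ha (by simpa using congrArg Additive.toMul h))
  set X : Finset (Fin n) → (D →* ℤˣ) := fun A => ∏ i ∈ A, (b i).toMul with hX
  have hXb : Function.Bijective X := by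
    have h1 : X = Additive.toMul ∘ (fun A : Finset (Fin n) => ∑ i ∈ A, b i) := by
      funext A
      rw [hX, Function.comp_apply, toMul_sum]
    rw [h1]
    exact Additive.toMul.bijective.comp hbij
  let T : D → Finset (Fin n) := fun t => Finset.univ.filter (fun i => (b i).toMul t = -1)
  have hXT : ∀ A t, ((X A t : ℤˣ) : ℤ) = (-1) ^ (A ∩ T t).card := by
    intro A t
    have h1 : X A t = ∏ i ∈ A, (b i).toMul t := by
      rw [hX]
      simp only
      rw [MonoidHom.finsetProd_apply]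
    rw [h1, Units.coe_prod, ← Finset.prod_filter_mul_prod_filter_not A (fun i => (b i).toMul t = -1)]
    have h3 : ∏ i ∈ A.filter (fun i => ¬ (b i).toMul t = -1), (((b i).toMul t : ℤˣ) : ℤ) = 1 := by
      refine Finset.prod_eq_one fun i hi => ?_
      rw [Finset.mem_filter] at hi
      rw [(Int.units_eq_one_or _).resolve_right hi.2]
      rfl
    have h4 : ∏ i ∈ A.filter (fun i => (b i).toMul t = -1), (((b i).toMul t : ℤˣ) : ℤ) =
        ∏ i ∈ A.filter (fun i => (b i).toMul t = -1), (-1 : ℤ) := by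
      refine Finset.prod_congr rfl fun i hi => ?_
      rw [Finset.mem_filter] at hi
      rw [hi.2]
      rfl
    rw [h3, h4, mul_one, Finset.prod_const]
    congr 2
    ext i
    simp [T]
  have hTinj : Function.Injective T := by
    intro t t' h
    by_contra hne
    have h1 : t * t' ≠ 1 := by
      intro h3
      apply hne
      have h4 := congrArg (fun x => x * t') h3
      simp only [mul_assoc, h2, mul_one, one_mul] at h4
      exact h4
    obtain ⟨χ, hχ⟩ := char_sep h2 h1
    obtain ⟨A, rfl⟩ := hXb.2 χ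
    apply hχ
    rw [map_mul]
    have h5 : X A t = X A t' := by
      apply Units.ext
      rw [hXT, hXT, h]
    rw [h5, Int.units_mul_self]
  have hTb : Function.Bijective T := by
    have := Fintype.ofFinite D
    rw [Fintype.bijective_iff_injective_and_card]
    refine ⟨hTinj, ?_⟩
    rw [Fintype.card_finset, Fintype.card_fin, ← hn, Nat.card_eq_fintype_card]
  let e := Equiv.ofBijective T hTb
  refine ⟨X, e.symm, i₀, hXb, e.symm.bijective, ?_, ?_, ?_⟩
  · rw [hX]
    simp only [Finset.prod_singleton, hb, toMul_ofMul]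
  · intro A B
    apply MonoidHom.ext
    intro t
    apply Units.ext
    rw [MonoidHom.mul_apply, Units.val_mul, hXT, hXT, hXT, sign_symmDiff]
  · intro A T'
    rw [hXT]
    have h1 : T (e.symm T') = T' := e.apply_symm_apply T'
    rw [h1]

/-- the combinatorial lemma -/
theorem phi_div {G : Type*} [Group G] {D : Subgroup G} [Finite D]
    (hDc : ∀ s t : D, s * t = t * s) (hD2 : ∀ t : D, t * t = 1) {n : ℕ}
    (hn : Nat.card D = 2 ^ n) {a : D →* ℤˣ} (ha : a ≠ 1) {S : AddSubgroup (G → ℝ)}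
    (hS : ∀ h φ, φ ∈ S → tr h φ ∈ S) {ψ : (D →* ℤˣ) → G → ℝ} (hψ : ∀ e, ψ e ∈ S)
    (hpair : HPair ψ)
    (hcen : ∃ ν ∈ S, ∀ g, ∑ᶠ e : D →* ℤˣ, ∑ᶠ t : D, ψ e (g * t) = 2 ^ n * ν g) :
    2 ^ ((n - 1) / 2 - 1) • Phi a ψ ∈ S := by
  classical
  let _ : CommGroup D := { (inferInstance : Group D) with mul_comm := hDc }
  have : Finite (D →* ℤˣ) := Finite.of_injective (fun f : D →* ℤˣ => (f : D → ℤˣ))
    DFunLike.coe_injective
  have := Fintype.ofFinite (D →* ℤˣ)
  have := Fintype.ofFinite D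
  obtain ⟨X, τ, i₀, hX, hτ, hXa, hXd, hXτ⟩ := exists_coord hD2 hn ha
  set u : Finset (Fin n) → Finset (Fin n) → (G → ℝ) := fun e T => tr (τ T : G) (ψ (X e)) with hu
  have hF : ∀ E A g, F u E A g = ∑ t : D, (((X A t : ℤˣ) : ℤ) : ℝ) * ψ (X E) (g * t) := by
    intro E A g
    unfold F
    rw [Finset.sum_apply, ← Equiv.sum_comp (Equiv.ofBijective τ hτ)]
    refine Finset.sum_congr rfl fun T _ => ?_
    rw [Equiv.ofBijective_apply, hXτ, hu]
    simp only [Pi.smul_apply, tr_apply, zsmul_eq_mul]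
  have hsumE : ∀ f : (D →* ℤˣ) → ℝ, ∑ e : D →* ℤˣ, f e = ∑ E : Finset (Fin n), f (X E) := by
    intro f
    exact (Equiv.sum_comp (Equiv.ofBijective X hX) f).symm
  have hX0 : ∀ t : D, X ∅ t = 1 := by
    intro t
    obtain ⟨T, rfl⟩ := hτ.2 t
    apply Units.ext
    rw [hXτ]
    simp
  have key := exists_div (S := S) (u := u) (fun e T => hS _ _ (hψ _)) (by
    intro E E'
    by_cases hE : E = E'
    · rw [hE]
    · funext g
      rw [hF, hF, hXd]
      have h1 := hpair (X E) (X E') (fun h => hE (hX.1 h)) g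
      simp only [finsum_eq_sum_of_fintype] at h1
      exact h1) (by
    obtain ⟨ν, hν, h1⟩ := hcen
    refine ⟨ν, hν, ?_⟩
    funext g
    have h3 := h1 g
    simp only [finsum_eq_sum_of_fintype] at h3
    rw [Finset.sum_apply, Pi.smul_apply, nsmul_eq_mul]
    simp_rw [hF, hX0]
    push_cast
    rw [← h3, hsumE]
    simp only [one_mul]) i₀
  obtain ⟨w, hw, hw'⟩ := key
  have h5 : 2 ^ ((n - 1) / 2 - 1) • Phi a ψ = w := by
    funext g
    have h6 := congrFun hw' g
    rw [Finset.sum_apply, Pi.smul_apply, nsmul_eq_mul] at h6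
    simp_rw [hF, hXa] at h6
    rw [Pi.smul_apply, nsmul_eq_mul, Phi, hn]
    simp only [finsum_eq_sum_of_fintype]
    rw [hsumE, h6]
    have h7 : n = ((n - 1) / 2 - 1) + (n - ((n - 1) / 2 - 1)) := by omega
    have h8 : ((2 ^ n : ℕ) : ℝ) = 2 ^ ((n - 1) / 2 - 1) * 2 ^ (n - ((n - 1) / 2 - 1)) := by
      rw [← pow_add, ← h7]
      push_cast
      rfl
    rw [h8]
    push_cast
    field_simp
  rw [h5]
  exact hw

end Pool.Agent.StarkRQ.OctG
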